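import Pool.Agent.Y554.SN.Stm

/-!
Project NE: the crossing probability of the square `[-n, n]²` at complex parameters near the
critical point. Statements of the parts.
-/

set_option autoImplicit false

namespace Pool.Agent.Y554.NE

open H974 H12S H985T H389NS Finset Pool.Agent.Y554.DP Pool.Agent.Y554.SN

/-- position of an edge (its first end point) -/
def pos (e : Edg) : ℤ × ℤ := (e.1, e.2.1)

/-- distance of two edges (sup distance of their positions) -/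
def ds (e e' : Edg) : ℕ := max (e.1 - e'.1).natAbs (e.2.1 - e'.2.1).natAbs

/-- diameter of a finite set of edges -/
def dm (S : Finset Edg) : ℕ := S.sup (fun a => S.sup (fun b => ds a b))

/-- neighbourhood of radius `s` -/
noncomputable def nb (S : Finset Edg) (s : ℕ) : Finset Edg := S.biUnion (fun e => blk (pos e) s)

/-- `S` is `t`-connected -/
def conn (t : ℕ) (S : Finset Edg) : Prop :=
  ∀ A ⊆ S, A.Nonempty → (S \ A).Nonempty → ∃ a ∈ A, ∃ b ∈ S \ A, ds a b ≤ t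

/-- radius `s`, cut off at `1` and `n` -/
def cap (n s : ℕ) : ℕ := max 1 (min s n)

/-- one-layer bound for the annulus of radii `r`, `D` around `c` -/
noncomputable def q1 (n : ℕ) (c : ℤ × ℤ) (r D : ℕ) : ℝ := (qc n c r D) ^ (1 / 2 : ℝ)

/-- bound for the arm event from the edge `e` to the distance `s` -/
noncomputable def psi (n : ℕ) (e : Edg) (s : ℕ) : ℝ := q1 n (pos e) 1 (cap n s)

/-- Every edge of `S` is pivotal for some choice of the configuration in `S`. -/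
def Qe (n : ℕ) (S F : Finset Edg) : Prop :=
  ∀ e ∈ S, ∃ T ⊆ S, Pv (Lf n) (Rt n) e (↑((F \ S) ∪ T) : Set Edg)

/-- The crossing probability at the complex parameter `p`. -/
noncomputable def Zc (n : ℕ) (p : ℂ) : ℂ :=
  ∑ F ∈ (boxE n).powerset,
    ((fC (Lf n) (Rt n) F : ℝ) : ℂ) * p ^ F.card * (1 - p) ^ ((boxE n).card - F.card)

/-- TAY: Taylor expansion at `1 / 2`. -/
def S_TAY : Prop := ∀ (n : ℕ) (z : ℂ), ‖Zc n (1 / 2 + z)‖ ≤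
  ∑ S ∈ (boxE n).powerset, (2 * ‖z‖) ^ S.card * PQ (1 / 2) (boxE n) (Qe n S)

/-- CH1: chains of annuli, one layer (from `S_CHAIN` at `x = 0`). -/
def S_CH1 : Prop := ∃ (C : ℝ) (K : ℕ), 1 ≤ C ∧ 1 ≤ K ∧ ∀ (n r D : ℕ) (c : ℤ × ℤ),
    1 ≤ r → r ≤ D → D ≤ n → |c.1| ≤ n → |c.2| ≤ n →
    ∃ Ch : Finset Edg → Prop,
      (∀ F F' : Finset Edg, F ∩ (blk c (K * D) \ blk c r) = F' ∩ (blk c (K * D) \ blk c r) →
        (Ch F ↔ Ch F')) ∧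
      (∀ F : Finset Edg, F ⊆ boxE n →
        BPv (Lf n) (Rt n) (blk c r ∩ boxE n) (↑F : Set Edg) → Ch F) ∧
      PQ (1 / 2) (boxE n) Ch ≤ C * q1 n c r D

/-- Q1: properties of `q1`. -/
def S_Q1 : Prop :=
  (∀ (n : ℕ) (c : ℤ × ℤ) (r s D : ℕ), 1 ≤ r → r ≤ s → s ≤ D →
    q1 n c r s * q1 n c s D = q1 n c r D) ∧
  (∀ (n : ℕ) (c : ℤ × ℤ) (r D : ℕ), 1 ≤ r → r ≤ D → 0 < q1 n c r D ∧ q1 n c r D ≤ 1) ∧
  (∀ (n : ℕ) (c : ℤ × ℤ) (r D M : ℕ), 1 ≤ r → r ≤ D → 1 ≤ M → D ≤ M * r →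
    1 ≤ (M:ℝ) ^ 2 * q1 n c r D) ∧
  (∀ (n : ℕ) (c c' : ℤ × ℤ) (r D : ℕ), 1 ≤ r → r ≤ D → |c.1 - c'.1| ≤ 2 * r →
    |c.2 - c'.2| ≤ 2 * r → q1 n c r D ≤ 8 * q1 n c' r D)

/-- `Good n t τ s a k S x`: there are an event and a tree on `S` with root `x`: the event depends
on the configuration in the neighbourhood of radius `t / 2` of `S`, it holds if all the edges of a
set `S' ⊇ S`, the other edges of which are at distance more than `t` of `S`, are pivotal (`Qe`); the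
edges of the tree have length at most `τ`; and the probability of the event is bounded. -/
def Good (n t τ s : ℕ) (a : ℝ) (k : ℕ) (S : Finset Edg) (x : Edg) : Prop :=
  ∃ (Ev : Finset Edg → Prop) (par : Edg → Edg) (rk : Edg → ℕ),
    (∀ F F' : Finset Edg, F ∩ (nb S (t / 2) \ S) = F' ∩ (nb S (t / 2) \ S) → (Ev F ↔ Ev F')) ∧
    (∀ S' : Finset Edg, S ⊆ S' → S' ⊆ boxE n → (∀ v ∈ S, ∀ w ∈ S' \ S, t < ds v w) →
      ∀ F : Finset Edg, F ⊆ boxE n → Qe n S' F → Ev F) ∧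
    (∀ y ∈ S, y ≠ x → par y ∈ S ∧ rk (par y) < rk y ∧ ds y (par y) ≤ τ) ∧
    PQ (1 / 2) (boxE n) Ev ≤
      a ^ k * (∏ y ∈ S.erase x, psi n y (ds y (par y))) * psi n x s

/-- BASE: all edges of `S` at the same position. -/
def S_BASE : Prop := ∃ C : ℝ, 1 ≤ C ∧ ∀ (a : ℝ) (n t' : ℕ) (S : Finset Edg) (x : Edg),
    C ≤ a → 1 ≤ n → t' ≤ n → S ⊆ boxE n → x ∈ S → (∀ y ∈ S, ds y x = 0) →
    Good n t' 0 (max t' (dm S)) a 1 S x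

/-- START: change of the radius. -/
def S_START : Prop := ∃ C : ℝ, 1 ≤ C ∧ ∀ (a : ℝ) (n t k : ℕ) (R : Finset Edg) (x : Edg),
    C ≤ a → 1 ≤ n → R ⊆ boxE n → x ∈ R →
    Good n t (t + 1) (max t (dm R)) a k R x →
    Good n t (t + 1) (max (t + 1) (dm R)) a (k + 1) R x

/-- MERGE: union of two sets at distance `t + 1`. -/
def S_MERGE : Prop := ∃ C : ℝ, 1 ≤ C ∧ ∀ (a : ℝ) (n t k k' : ℕ) (U R : Finset Edg)
    (x b u : Edg), C ≤ a → 1 ≤ n → t < n → U ⊆ boxE n → R ⊆ boxE n → x ∈ U → u ∈ U → b ∈ R →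
    ds b u ≤ t + 1 → (∀ v ∈ U, ∀ w ∈ R, t < ds v w) →
    Good n t (t + 1) (max (t + 1) (dm U)) a k U x →
    Good n t (t + 1) (max t (dm R)) a k' R b →
    Good n t (t + 1) (max (t + 1) (dm (U ∪ R))) a (k + k' + 1) (U ∪ R) x

/-- OUT: the annulus around `S`. -/
def S_OUT : Prop := ∃ C : ℝ, 1 ≤ C ∧ ∀ (a : ℝ) (n t t' k : ℕ) (S : Finset Edg) (x : Edg),
    C ≤ a → 1 ≤ n → t + 1 ≤ t' → t' ≤ n → S ⊆ boxE n → x ∈ S →
    Good n t (t + 1) (max (t + 1) (dm S)) a k S x →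
    Good n t' (t + 1) (max t' (dm S)) a (k + 1) S x

/-- KEY: the bound for a `t`-connected set. -/
def S_KEY : Prop := ∃ a : ℝ, 1 ≤ a ∧ ∀ (n t t' : ℕ) (S : Finset Edg) (x : Edg),
    1 ≤ n → t ≤ t' → t' ≤ n → S ⊆ boxE n → x ∈ S → conn t S →
    Good n t' t (max t' (dm S)) a (4 * S.card - 3) S x

/-- TREE: sum over the sets which carry a tree. -/
def S_TREE : Prop := ∀ (V : Finset Edg) (κ : Edg → Edg → ℝ) (w : Finset Edg → Edg → ℝ)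
    (M Y : ℝ), (∀ y z, 0 ≤ κ y z) → (∀ z ∈ V, ∑ y ∈ V, κ y z ≤ M) → 0 ≤ Y → 3 * M * Y ≤ 1 →
    (∀ S ⊆ V, ∀ x ∈ S, ∃ (par : Edg → Edg) (rk : Edg → ℕ),
      (∀ y ∈ S, y ≠ x → par y ∈ S ∧ rk (par y) < rk y) ∧
      w S x ≤ ∏ y ∈ S.erase x, κ y (par y)) →
    ∀ x ∈ V, ∑ S ∈ V.powerset.filter (fun S => x ∈ S), Y ^ S.card * w S x ≤ 3 * Y

/-- `Loc n m R β`: a local event for the set `R`, with probability at most `β`. -/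
def Loc (n m : ℕ) (R : Finset Edg) (β : ℝ) : Prop := ∃ Ev : Finset Edg → Prop,
    (∀ F F' : Finset Edg, F ∩ (nb R (m / 2) \ R) = F' ∩ (nb R (m / 2) \ R) → (Ev F ↔ Ev F')) ∧
    (∀ S' : Finset Edg, R ⊆ S' → S' ⊆ boxE n → (∀ v ∈ R, ∀ w ∈ S' \ R, m < ds v w) →
      ∀ F : Finset Edg, F ⊆ boxE n → Qe n S' F → Ev F) ∧
    PQ (1 / 2) (boxE n) Ev ≤ β

/-- DEC: decomposition into `m`-connected components. -/
def S_DEC : Prop := ∀ (n m : ℕ) (B : Finset Edg → ℝ),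
    (∀ R ⊆ boxE n, R.Nonempty → conn m R → Loc n m R (B R)) →
    ∀ S ⊆ boxE n, ∃ P : Finset (Finset Edg), (∀ R ∈ P, R ⊆ S ∧ R.Nonempty ∧ conn m R) ∧
      (∀ R ∈ P, ∀ R' ∈ P, R ≠ R' → Disjoint R R') ∧ P.biUnion id = S ∧
      PQ (1 / 2) (boxE n) (Qe n S) ≤ ∏ R ∈ P, B R

/-- EXPS: polymer sum. -/
def S_EXPS : Prop := ∀ (V : Finset Edg) (u b : Finset Edg → ℝ), (∀ R, 0 ≤ b R) →
    (∀ S ⊆ V, ∃ P : Finset (Finset Edg), (∀ R ∈ P, R ⊆ V ∧ R.Nonempty) ∧ P.biUnion id = S ∧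
      u S ≤ ∏ R ∈ P, b R) →
    ∑ S ∈ V.powerset, u S ≤
      Real.exp (∑ R ∈ V.powerset.filter (fun R => R.Nonempty), b R)

/-- SUMA: sum of the kernel. -/
def S_SUMA : Prop := ∃ C : ℝ, 1 ≤ C ∧ ∀ (n m : ℕ) (z : Edg), z ∈ boxE n → 1 ≤ m → m ≤ n →
    ∑ y ∈ (boxE n).filter (fun y => ds y z ≤ m), psi n y (ds y z) ≤ C * (m:ℝ) ^ (3 / 4 : ℝ)

/-- SUMB: sum over the square. -/
def S_SUMB : Prop := ∃ C : ℝ, 1 ≤ C ∧ ∀ n m : ℕ, 1 ≤ m → m ≤ n →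
    ∑ y ∈ boxE n, psi n y m ≤ C * ((n:ℝ) ^ 2 * (m:ℝ) ^ (-(5 / 4) : ℝ))

/-- POLY: sum over all sets. -/
def S_POLY : Prop := ∃ C : ℝ, 1 ≤ C ∧ ∀ (n m : ℕ) (Y : ℝ), 1 ≤ m → m ≤ n → 0 ≤ Y →
    C * Y * (m:ℝ) ^ (3 / 4 : ℝ) ≤ 1 →
    ∑ S ∈ (boxE n).powerset, Y ^ S.card * PQ (1 / 2) (boxE n) (Qe n S) ≤
      Real.exp (C * Y * ((n:ℝ) ^ 2 * (m:ℝ) ^ (-(5 / 4) : ℝ)))

/-- FIN: the bound at all complex parameters. -/
def S_FIN : Prop := ∃ C : ℝ, 1 ≤ C ∧ ∀ (n : ℕ) (z : ℂ), 1 ≤ n →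
    ‖Zc n (1 / 2 + z)‖ ≤ C * Real.exp (C * ((n:ℝ) ^ 2 * ‖z‖ ^ (8 / 3 : ℝ)))

/-! ### complex analysis -/

/-- LIM: a sequence of entire functions of order at most `8 / 3`, with uniform bounds. -/
def S_LIM : Prop := ∀ (P : ℕ → ℂ → ℂ) (C : ℝ), 1 ≤ C → (∀ k, Differentiable ℂ (P k)) →
    (∀ k w, ‖P k w‖ ≤ C * Real.exp (C * ‖w‖ ^ (8 / 3 : ℝ))) →
    (∃ (μ : ℕ → ℕ) (G : ℂ → ℂ), StrictMono μ ∧ Differentiable ℂ G ∧
      (∀ w, ‖G w‖ ≤ C * Real.exp (C * ‖w‖ ^ (8 / 3 : ℝ))) ∧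
      TendstoLocallyUniformly (fun k => P (μ k)) G Filter.atTop) ∧
    (∀ u : ℝ → ℂ, (∀ x : ℝ, Filter.Tendsto (fun k => P k (x : ℂ)) Filter.atTop (nhds (u x))) →
      ∃ G : ℂ → ℂ, Differentiable ℂ G ∧ (∀ x : ℝ, G (x : ℂ) = u x) ∧
        (∀ w, ‖G w‖ ≤ C * Real.exp (C * ‖w‖ ^ (8 / 3 : ℝ))) ∧
        TendstoLocallyUniformly P G Filter.atTop)

/-- DER: Cauchy estimates for the derivatives at `0`. -/
def S_DER : Prop := ∀ C : ℝ, 1 ≤ C → ∃ C' : ℝ, 1 ≤ C' ∧ ∀ f : ℂ → ℂ, Differentiable ℂ f →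
    (∀ w, ‖f w‖ ≤ C * Real.exp (C * ‖w‖ ^ (8 / 3 : ℝ))) →
    ∀ k : ℕ, ‖iteratedDeriv k f 0‖ ≤ C' ^ (k + 1) * ((k.factorial : ℝ)) ^ (5 / 8 : ℝ)

/-- ZER: number of zeros in a disc. -/
def S_ZER : Prop := ∀ C δ : ℝ, 1 ≤ C → 0 < δ → ∃ C' : ℝ, 1 ≤ C' ∧ ∀ f : Polynomial ℂ,
    (∀ w, ‖f.eval w‖ ≤ C * Real.exp (C * ‖w‖ ^ (8 / 3 : ℝ))) → δ ≤ ‖f.eval 0‖ →
    ∀ R : ℝ, 0 < R → ((f.roots.filter (fun w => ‖w‖ ≤ R)).card : ℝ) ≤ C' * R ^ (8 / 3 : ℝ)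

end Pool.Agent.Y554.NE
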