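import Mathlib

/-!
Project NE: complex analysis for the zeros of the crossing polynomials. Statements of the parts.
-/

set_option autoImplicit false

namespace Pool.Agent.Y554.NE

/-- CLO: a zero close to the origin. -/
def S_CLO : Prop := ∀ C c : ℝ, 1 ≤ C → 0 < c → ∃ X R : ℝ, 1 ≤ X ∧ 1 ≤ R ∧
    ∀ f : ℂ → ℂ, Differentiable ℂ f →
    (∀ w, ‖f w‖ ≤ C * Real.exp (C * ‖w‖ ^ (8 / 3 : ℝ))) →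
    (∀ x : ℝ, 0 ≤ x → x ≤ X → 1 / 2 ≤ ‖f (x : ℂ)‖ ∧ ‖f (x : ℂ)‖ ≤ 1) →
    (∀ x : ℝ, 0 ≤ x → x ≤ X → ‖f ((-x : ℝ) : ℂ)‖ ≤ C * Real.exp (-(c * x ^ (4 / 3 : ℝ)))) →
    ∃ w, ‖w‖ ≤ R ∧ f w = 0

/-- CLK: many zeros close to the origin. -/
def S_CLK : Prop := ∀ (k : ℕ) (C c : ℝ), 1 ≤ C → 0 < c → ∃ X R : ℝ, 1 ≤ X ∧ 1 ≤ R ∧
    ∀ f : Polynomial ℂ,
    (∀ w, ‖f.eval w‖ ≤ C * Real.exp (C * ‖w‖ ^ (8 / 3 : ℝ))) →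
    (∀ x : ℝ, 0 ≤ x → x ≤ X → 1 / 2 ≤ ‖f.eval (x : ℂ)‖ ∧ ‖f.eval (x : ℂ)‖ ≤ 1) →
    (∀ x : ℝ, 0 ≤ x → x ≤ X →
      ‖f.eval ((-x : ℝ) : ℂ)‖ ≤ C * Real.exp (-(c * x ^ (4 / 3 : ℝ)))) →
    k ≤ (f.roots.filter (fun w => ‖w‖ ≤ R)).card

/-- ORD: lower bound for the order. -/
def S_ORD : Prop := ∀ (G : ℂ → ℂ) (c C A B σ : ℝ), 0 < c → σ < 4 / 3 → Differentiable ℂ G →
    (∀ x : ℝ, 0 ≤ x → ‖G ((-x : ℝ) : ℂ)‖ ≤ C * Real.exp (-(c * x ^ (4 / 3 : ℝ)))) →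
    (∀ w, ‖G w‖ ≤ A * Real.exp (B * ‖w‖ ^ σ)) → ∀ w, G w = 0

end Pool.Agent.Y554.NE
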