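import Pool.Agent.Y932.NE.Clk

/-!
Project NE: a power law for the number of zeros (the argument is the one of helper932 in
`Pool.Agent.Y932.NE.Clk`, with explicit constants).
-/

set_option autoImplicit false

open Metric Set

namespace Pool.Agent.Y554.NE.Clp

open Pool.Agent.Y932.NE.Clo (exists_log)
open Pool.Agent.Y932.NE.Clk

open Polynomial in
/-- the main inequality -/
theorem core (k : ℕ) (C c X R δ : ℝ) (hC : 1 ≤ C) (hk : 1 ≤ k) (hX10 : 10 ≤ X)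
    (hXR : 4 * X ≤ R) (hδ : 4 * (10 * C * R ^ (8 / 3 : ℝ)) * (2 * X / R) ^ 3 ≤ δ) (f : ℂ[X])
    (hgrow : ∀ w, ‖f.eval w‖ ≤ C * Real.exp (C * ‖w‖ ^ (8 / 3 : ℝ)))
    (hpos : ∀ x : ℝ, 0 ≤ x → x ≤ X → 1 / 2 ≤ ‖f.eval (x : ℂ)‖ ∧ ‖f.eval (x : ℂ)‖ ≤ 1)
    (hneg : ∀ x : ℝ, 0 ≤ x → x ≤ X →
      ‖f.eval ((-x : ℝ) : ℂ)‖ ≤ C * Real.exp (-(c * x ^ (4 / 3 : ℝ)))) (hc : 0 < c)
    (hcon : (f.roots.filter (fun w => ‖w‖ ≤ R)).card < k) :
    c * (X / 10) ^ (4 / 3 : ℝ) ≤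
      4 * k * Real.log (1 + 16 * k) + 8 * δ + Real.log (16 * C) := by
  classical
  have hkR : (1 : ℝ) ≤ k := by exact_mod_cast hk
  set L : ℝ := 1 + 16 * k with hL
  have hL1 : 1 ≤ L := by rw [hL]; linarith
  have hL4 : 1 ≤ L ^ 4 := one_le_pow₀ hL1
  have hX0 : 0 < X := by linarith
  have hX1 : 1 ≤ X := by linarith
  have hR1 : 1 ≤ R := by linarith
  have hR0 : 0 < R := by linarith
  set S : Multiset ℂ := f.roots.filter (fun w => ‖w‖ ≤ R) with hS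
  have hSR : ∀ a ∈ S, ‖a‖ ≤ R := fun a ha => (Multiset.mem_filter.1 ha).2
  have hf0' := hpos 0 le_rfl hX0.le
  rw [Complex.ofReal_zero] at hf0'
  have hfne : f ≠ 0 := by
    rintro rfl
    rw [eval_zero, norm_zero] at hf0'
    linarith [hf0'.1]
  obtain ⟨g, hg⟩ := (Multiset.prod_X_sub_C_dvd_iff_le_roots hfne S).2 (Multiset.filter_le _ _)
  set P : ℂ[X] := (S.map fun a => Polynomial.X - Polynomial.C a).prod with hP
  have hPg : P * g ≠ 0 := by rw [← hg]; exact hfne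
  have hgne : g ≠ 0 := right_ne_zero_of_mul hPg
  have hfPg : ∀ z, ‖f.eval z‖ = pn S z * ‖g.eval z‖ := by
    intro z
    rw [hg, eval_mul, norm_mul, ← norm_eval]
  have hgz : ∀ w ∈ ball (0 : ℂ) R, g.eval w ≠ 0 := by
    intro w hw h0
    have hwR : ‖w‖ ≤ R := (mem_ball_zero_iff.1 hw).le
    have h1 : f.roots = S + g.roots := by
      conv_lhs => rw [hg]
      rw [roots_mul hPg, hP, roots_multiset_prod_X_sub_C]
    have h2 := congrArg (Multiset.count w) h1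
    rw [Multiset.count_add, hS, Multiset.count_filter_of_pos (p := fun w : ℂ => ‖w‖ ≤ R) hwR] at h2
    have h3 : 0 < Multiset.count w g.roots := by
      rw [Multiset.count_pos, mem_roots hgne]
      exact h0
    omega
  -- the growth of `g`
  have hgd : Differentiable ℂ (fun z => g.eval z) := g.differentiable
  have hRm : 0 < R ^ S.card := by positivity
  set K : ℝ := C * Real.exp (C * (2 * R) ^ (8 / 3 : ℝ)) with hK
  have hgK : ∀ z ∈ closedBall (0 : ℂ) (2 * R), ‖g.eval z‖ ≤ K / R ^ S.card := by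
    intro z hz
    have h2R : (2 * R) ≠ 0 := by positivity
    refine Complex.norm_le_of_forall_mem_frontier_norm_le (U := ball (0 : ℂ) (2 * R))
      isBounded_ball hgd.diffContOnCl (fun w hw => ?_) (by rwa [closure_ball _ h2R])
    rw [frontier_ball _ h2R, mem_sphere_zero_iff_norm] at hw
    have h1 := hgrow w
    rw [hfPg, hw] at h1
    rw [le_div_iff₀ hRm, mul_comm]
    exact (mul_le_mul_of_nonneg_right (pn_low S w R hR0.le hw hSR) (norm_nonneg _)).trans h1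
  obtain ⟨h, hd, h0, hexp⟩ := exists_log (fun z => g.eval z) hgd R hR0 hgz
  have hnorm : ∀ w ∈ ball (0 : ℂ) R, ‖g.eval w‖ = ‖g.eval 0‖ * Real.exp (h w).re := by
    intro w hw
    rw [hexp w hw, norm_mul, Complex.norm_exp]
  have hf0 := hf0'
  rw [hfPg] at hf0
  have hP0 : pn S 0 ≤ R ^ S.card := pn_up S R hR0.le hSR
  have hg0 : 1 / 2 ≤ R ^ S.card * ‖g.eval 0‖ :=
    hf0.1.trans (mul_le_mul_of_nonneg_right hP0 (norm_nonneg _))
  set M : ℝ := 10 * C * R ^ (8 / 3 : ℝ) with hM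
  have hB8 : 1 ≤ R ^ (8 / 3 : ℝ) := Real.one_le_rpow hR1 (by norm_num)
  have hM0 : 0 < M := by positivity
  have hR83 : (2 * R) ^ (8 / 3 : ℝ) ≤ 8 * R ^ (8 / 3 : ℝ) := by
    rw [Real.mul_rpow (by norm_num) hR0.le]
    have h2 : (2 : ℝ) ^ (8 / 3 : ℝ) ≤ 8 := by
      have h3 : (2 : ℝ) ^ (8 / 3 : ℝ) ≤ 2 ^ (3 : ℝ) :=
        Real.rpow_le_rpow_of_exponent_le (by norm_num) (by norm_num)
      refine h3.trans (le_of_eq ?_)
      norm_num
    exact mul_le_mul_of_nonneg_right h2 (by positivity)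
  have hre : ∀ z ∈ ball (0 : ℂ) R, (h z).re ≤ M := by
    intro z hz
    have hz2 : z ∈ closedBall (0 : ℂ) (2 * R) :=
      mem_closedBall_zero_iff.2 (by have := mem_ball_zero_iff.1 hz; linarith)
    have h1 := hgK z hz2
    rw [hnorm z hz, le_div_iff₀ hRm] at h1
    have h2 : 1 / 2 * Real.exp (h z).re ≤ K := by
      have h3 := mul_le_mul_of_nonneg_right hg0 (Real.exp_pos (h z).re).le
      linarith
    have h4 : K ≤ C * Real.exp (C * (8 * R ^ (8 / 3 : ℝ))) := by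
      rw [hK]
      gcongr
    have h5 : Real.exp (h z).re ≤ Real.exp M := by
      have h6 : 2 * C ≤ Real.exp (2 * C) := by
        have := Real.add_one_le_exp (2 * C)
        linarith
      calc Real.exp (h z).re ≤ 2 * C * Real.exp (C * (8 * R ^ (8 / 3 : ℝ))) := by linarith
        _ ≤ Real.exp (2 * C) * Real.exp (C * (8 * R ^ (8 / 3 : ℝ))) :=
            mul_le_mul_of_nonneg_right h6 (Real.exp_pos _).le
        _ = Real.exp (2 * C + C * (8 * R ^ (8 / 3 : ℝ))) := (Real.exp_add _ _).symm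
        _ ≤ Real.exp M := by
            apply Real.exp_le_exp.2
            rw [hM]
            nlinarith
    exact Real.exp_le_exp.1 h5
  obtain ⟨a, b, hq⟩ := quad h R M X hR0 hM0 hX0 hXR hd h0 hre
  -- the good point
  obtain ⟨t, ht1, ht2, ht⟩ := grid S.toFinset k
    (lt_of_le_of_lt (Multiset.toFinset_card_le S) hcon) X hX0
  have ht0 : 0 < t := by linarith
  have hd0 : 0 < X / (40 * k) := by positivity
  have hLt : 1 + 2 * t / (X / (40 * k)) ≤ L := by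
    rw [hL]
    have h1 : 2 * t / (X / (40 * k)) ≤ 16 * k := by
      rw [div_le_iff₀ hd0]
      have h2 : 16 * (k : ℝ) * (X / (40 * k)) = 2 * (X / 5) := by field_simp; norm_num
      rw [h2]
      linarith
    linarith
  have h4 := pn_four S t (X / (40 * k)) L ht0 hd0 hLt fun a ha => ht a (Multiset.mem_toFinset.2 ha)
  have hmem : ∀ u : ℝ, |u| ≤ X → (u : ℂ) ∈ ball (0 : ℂ) R := by
    intro u hu
    rw [mem_ball_zero_iff, Complex.norm_real, Real.norm_eq_abs]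
    linarith
  have m1 : |t| ≤ X := by rw [abs_of_pos ht0]; linarith
  have m2 : |-t| ≤ X := by rw [abs_neg]; exact m1
  have m3 : |3 * t| ≤ X := by rw [abs_of_pos (by positivity)]; linarith
  have m5 : |5 * t| ≤ X := by rw [abs_of_pos (by positivity)]; linarith
  -- the logarithms
  have hlog : 3 * (h (t : ℂ)).re + (h ((5 * t : ℝ) : ℂ)).re ≤
      8 * δ + ((h ((-t : ℝ) : ℂ)).re + 3 * (h ((3 * t : ℝ) : ℂ)).re) := by
    have q1 := (abs_le.1 ((Complex.abs_re_le_norm _).trans ((hq t m1).trans hδ))).2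
    have q2 := (abs_le.1 ((Complex.abs_re_le_norm _).trans ((hq (-t) m2).trans hδ))).1
    have q3 := (abs_le.1 ((Complex.abs_re_le_norm _).trans ((hq (3 * t) m3).trans hδ))).1
    have q5 := (abs_le.1 ((Complex.abs_re_le_norm _).trans ((hq (5 * t) m5).trans hδ))).2
    have r : ∀ u : ℝ, (h (u : ℂ) - (a * u + b * u ^ 2)).re = (h (u : ℂ)).re - (a.re * u + b.re * u ^ 2) := by
      intro u
      have : (a * u + b * u ^ 2 : ℂ) = ((u : ℝ) : ℂ) * a + ((u ^ 2 : ℝ) : ℂ) * b := by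
        push_cast; ring
      rw [this, Complex.sub_re, Complex.add_re, Complex.re_ofReal_mul, Complex.re_ofReal_mul]
      ring
    rw [r] at q1 q2 q3 q5
    nlinarith
  have v4 : pn S t ^ 3 * pn S ((5 * t : ℝ) : ℂ) * (‖g.eval (t : ℂ)‖ ^ 3 * ‖g.eval ((5 * t : ℝ) : ℂ)‖) ≤
      (L ^ 4) ^ S.card * (pn S ((-t : ℝ) : ℂ) * pn S ((3 * t : ℝ) : ℂ) ^ 3) *
      (Real.exp (8 * δ) * (‖g.eval ((-t : ℝ) : ℂ)‖ * ‖g.eval ((3 * t : ℝ) : ℂ)‖ ^ 3)) := by
    refine mul_le_mul h4 ?_ (by positivity) ?_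
    · rw [hnorm _ (hmem t m1), hnorm _ (hmem (5 * t) m5), hnorm _ (hmem (-t) m2),
        hnorm _ (hmem (3 * t) m3)]
      have h5 : Real.exp (h (t : ℂ)).re ^ 3 * Real.exp (h ((5 * t : ℝ) : ℂ)).re ≤
          Real.exp (8 * δ) *
            (Real.exp (h ((-t : ℝ) : ℂ)).re * Real.exp (h ((3 * t : ℝ) : ℂ)).re ^ 3) := by
        rw [← Real.exp_nat_mul, ← Real.exp_nat_mul, ← Real.exp_add, ← Real.exp_add, ← Real.exp_add]
        apply Real.exp_le_exp.2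
        simp only [Nat.cast_ofNat]
        linarith
      calc (‖g.eval 0‖ * Real.exp (h (t : ℂ)).re) ^ 3 * (‖g.eval 0‖ * Real.exp (h ((5 * t : ℝ) : ℂ)).re)
          = ‖g.eval 0‖ ^ 4 * (Real.exp (h (t : ℂ)).re ^ 3 * Real.exp (h ((5 * t : ℝ) : ℂ)).re) := by
            ring
        _ ≤ ‖g.eval 0‖ ^ 4 * (Real.exp (8 * δ) * (Real.exp (h ((-t : ℝ) : ℂ)).re *
            Real.exp (h ((3 * t : ℝ) : ℂ)).re ^ 3)) := mul_le_mul_of_nonneg_left h5 (by positivity)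
        _ = _ := by ring
    · have := pn_nonneg S ((-t : ℝ) : ℂ)
      have := pn_nonneg S ((3 * t : ℝ) : ℂ)
      positivity
  have v5 : ‖f.eval (t : ℂ)‖ ^ 3 * ‖f.eval ((5 * t : ℝ) : ℂ)‖ ≤
      (L ^ 4) ^ S.card * Real.exp (8 * δ) *
        (‖f.eval ((-t : ℝ) : ℂ)‖ * ‖f.eval ((3 * t : ℝ) : ℂ)‖ ^ 3) := by
    rw [hfPg, hfPg, hfPg, hfPg]
    refine le_trans (le_of_eq ?_) (v4.trans (le_of_eq ?_))
    · ring
    · ring
  have b1 := (hpos t ht0.le (by linarith)).1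
  have b5 := (hpos (5 * t) (by positivity) (by linarith)).1
  have b3 := (hpos (3 * t) (by positivity) (by linarith)).2
  have b0 := hneg t ht0.le (by linarith)
  have v6 : 1 / 16 ≤ ‖f.eval (t : ℂ)‖ ^ 3 * ‖f.eval ((5 * t : ℝ) : ℂ)‖ := by
    have h5 : (1 / 2 : ℝ) ^ 3 * (1 / 2) ≤ ‖f.eval (t : ℂ)‖ ^ 3 * ‖f.eval ((5 * t : ℝ) : ℂ)‖ := by
      gcongr
    refine le_trans (le_of_eq ?_) h5
    norm_num
  have hpow : (X / 10) ^ (4 / 3 : ℝ) ≤ t ^ (4 / 3 : ℝ) :=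
    Real.rpow_le_rpow (by positivity) ht1 (by norm_num)
  have v7 : ‖f.eval ((-t : ℝ) : ℂ)‖ * ‖f.eval ((3 * t : ℝ) : ℂ)‖ ^ 3 ≤
      C * Real.exp (-(c * (X / 10) ^ (4 / 3 : ℝ))) := by
    have h5 : ‖f.eval ((3 * t : ℝ) : ℂ)‖ ^ 3 ≤ 1 := pow_le_one₀ (norm_nonneg _) b3
    have h6 : Real.exp (-(c * t ^ (4 / 3 : ℝ))) ≤ Real.exp (-(c * (X / 10) ^ (4 / 3 : ℝ))) := by
      apply Real.exp_le_exp.2
      have h7 : c * (X / 10) ^ (4 / 3 : ℝ) ≤ c * t ^ (4 / 3 : ℝ) :=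
        mul_le_mul_of_nonneg_left hpow hc.le
      linarith
    calc ‖f.eval ((-t : ℝ) : ℂ)‖ * ‖f.eval ((3 * t : ℝ) : ℂ)‖ ^ 3
        ≤ ‖f.eval ((-t : ℝ) : ℂ)‖ * 1 := mul_le_mul_of_nonneg_left h5 (norm_nonneg _)
      _ ≤ C * Real.exp (-(c * t ^ (4 / 3 : ℝ))) := by rw [mul_one]; exact b0
      _ ≤ _ := mul_le_mul_of_nonneg_left h6 (by linarith)
  have v8 : (L ^ 4) ^ S.card ≤ (L ^ 4) ^ k := pow_le_pow_right₀ hL4 hcon.le
  have v9 : 1 / 16 ≤ (L ^ 4) ^ k * Real.exp (8 * δ) *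
      (C * Real.exp (-(c * (X / 10) ^ (4 / 3 : ℝ)))) := by
    refine v6.trans (v5.trans ?_)
    exact mul_le_mul (mul_le_mul_of_nonneg_right v8 (Real.exp_pos _).le) v7 (by positivity)
      (by positivity)
  have v10 : Real.exp (c * (X / 10) ^ (4 / 3 : ℝ)) ≤
      (L ^ 4) ^ k * Real.exp (8 * δ) * (16 * C) := by
    rw [Real.exp_neg] at v9
    have h5 := Real.exp_pos (c * (X / 10) ^ (4 / 3 : ℝ))
    have h6 := mul_le_mul_of_nonneg_left v9 (mul_pos (by norm_num : (0:ℝ) < 16) h5).le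
    have h7 : 16 * Real.exp (c * (X / 10) ^ (4 / 3 : ℝ)) * ((L ^ 4) ^ k * Real.exp (8 * δ) *
        (C * (Real.exp (c * (X / 10) ^ (4 / 3 : ℝ)))⁻¹)) =
        (L ^ 4) ^ k * Real.exp (8 * δ) * (16 * C) := by
      field_simp
    rw [h7] at h6
    linarith
  have v11 := Real.log_le_log (Real.exp_pos _) v10
  rw [Real.log_exp, Real.log_mul (by positivity) (by positivity),
    Real.log_mul (by positivity) (by positivity), Real.log_exp, Real.log_pow, Real.log_pow] at v11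
  push_cast at v11
  linarith

/-- CLP: the number of zeros in a disc of radius `R` is at least of the order `R ^ (1/5)`. -/
def S_CLP : Prop := ∀ C c : ℝ, 1 ≤ C → 0 < c → ∃ K : ℝ, 1 ≤ K ∧
    ∀ (f : Polynomial ℂ) (R : ℝ), K ≤ R →
    (∀ w, ‖f.eval w‖ ≤ C * Real.exp (C * ‖w‖ ^ (8 / 3 : ℝ))) →
    (∀ x : ℝ, 0 ≤ x → x ≤ R ^ (1 / 5 : ℝ) →
      1 / 2 ≤ ‖f.eval (x : ℂ)‖ ∧ ‖f.eval (x : ℂ)‖ ≤ 1) →
    (∀ x : ℝ, 0 ≤ x → x ≤ R ^ (1 / 5 : ℝ) →
      ‖f.eval ((-x : ℝ) : ℂ)‖ ≤ C * Real.exp (-(c * x ^ (4 / 3 : ℝ)))) →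
    R ^ (1 / 5 : ℝ) ≤ K * ((f.roots.filter (fun w => ‖w‖ ≤ R)).card : ℝ)

theorem clp : S_CLP := by
  intro C c hC hc
  obtain ⟨c1, hc1⟩ : ∃ c1 : ℝ, c1 = c * (1 / 10 : ℝ) ^ (4 / 3 : ℝ) := ⟨_, rfl⟩
  have hc10 : 0 < c1 := by rw [hc1]; positivity
  obtain ⟨D, hD⟩ : ∃ D : ℝ, D = max 1 (10240 * C / c1) := ⟨_, rfl⟩
  have hD1 : 1 ≤ D := by rw [hD]; exact le_max_left _ _
  have hD2 : 10240 * C / c1 ≤ D := by rw [hD]; exact le_max_right _ _
  have hD3 : 10240 * C ≤ D * c1 := by rwa [div_le_iff₀ hc10] at hD2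
  have hD0 : 0 < D := by linarith
  obtain ⟨ε, hε⟩ : ∃ ε : ℝ, ε = min 1 (c1 / 145) := ⟨_, rfl⟩
  have hε0 : 0 < ε := by rw [hε]; positivity
  have hε1 : ε ≤ 1 := by rw [hε]; exact min_le_left _ _
  have hε2 : 145 * ε ≤ c1 := by
    have : ε ≤ c1 / 145 := by rw [hε]; exact min_le_right _ _
    linarith
  obtain ⟨X0, hX0⟩ : ∃ X0 : ℝ, X0 = max 10 (max (2 / ε) (4 * Real.log (16 * C) / c1 + 4)) :=
    ⟨_, rfl⟩
  have hX01 : 10 ≤ X0 := by rw [hX0]; exact le_max_left _ _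
  have hX02 : 2 / ε ≤ X0 := by
    rw [hX0]; exact (le_max_left _ _).trans (le_max_right _ _)
  have hX03 : 4 * Real.log (16 * C) / c1 + 4 ≤ X0 := by
    rw [hX0]; exact (le_max_right _ _).trans (le_max_right _ _)
  -- `R = D ^ 3 * X ^ 5`
  obtain ⟨K, hK⟩ : ∃ K : ℝ, K = max (D ^ 3 * X0 ^ 5) (2 * D / ε) := ⟨_, rfl⟩
  have hK1 : D ^ 3 * X0 ^ 5 ≤ K := by rw [hK]; exact le_max_left _ _
  have hK2 : 2 * D / ε ≤ K := by rw [hK]; exact le_max_right _ _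
  have hD31 : 1 ≤ D ^ 3 := one_le_pow₀ hD1
  have hX051 : 1 ≤ X0 ^ 5 := one_le_pow₀ (by linarith)
  have hK11 : 1 ≤ K := by nlinarith
  refine ⟨K, hK11, ?_⟩
  intro f R hR hgrow hpos hneg
  have hR1 : 1 ≤ R := hK11.trans hR
  have hR0 : 0 < R := by linarith
  obtain ⟨X, hX⟩ : ∃ X : ℝ, X = (R / D ^ 3) ^ (1 / 5 : ℝ) := ⟨_, rfl⟩
  have hXnn : 0 ≤ X := by rw [hX]; positivity
  have hX5 : X ^ 5 = R / D ^ 3 := by
    rw [hX, ← Real.rpow_natCast, ← Real.rpow_mul (by positivity)]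
    norm_num
  have hRX : R = D ^ 3 * X ^ 5 := by rw [hX5]; field_simp
  have hXX0 : X0 ≤ X := by
    have h1 : X0 ^ 5 ≤ X ^ 5 := by
      rw [hX5, le_div_iff₀ (by positivity), mul_comm]
      exact hK1.trans hR
    exact le_of_pow_le_pow_left₀ (by norm_num) hXnn h1
  have hX10 : 10 ≤ X := hX01.trans hXX0
  have hXp : 0 < X := by linarith
  have hXR5 : X ≤ R ^ (1 / 5 : ℝ) := by
    rw [hX]
    apply Real.rpow_le_rpow (by positivity) _ (by norm_num)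
    exact div_le_self hR0.le hD31
  have hR5X : R ^ (1 / 5 : ℝ) ≤ D * X := by
    have h1 : R ^ (1 / 5 : ℝ) = (D ^ 3) ^ (1 / 5 : ℝ) * X := by
      rw [hX, ← Real.mul_rpow (by positivity) (by positivity)]
      congr 1
      field_simp
    rw [h1]
    apply mul_le_mul_of_nonneg_right _ hXnn
    calc (D ^ 3) ^ (1 / 5 : ℝ) = D ^ (3 / 5 : ℝ) := by
          rw [← Real.rpow_natCast D 3, ← Real.rpow_mul hD0.le]
          norm_num
      _ ≤ D ^ (1 : ℝ) := Real.rpow_le_rpow_of_exponent_le hD1 (by norm_num)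
      _ = D := Real.rpow_one D
  have hXR : 4 * X ≤ R := by
    rw [hRX]
    have h1 : 10 ^ 4 ≤ X ^ 4 := pow_le_pow_left₀ (by norm_num) hX10 4
    have h2 : X ^ 5 = X ^ 4 * X := by ring
    calc 4 * X ≤ X ^ 4 * X := mul_le_mul_of_nonneg_right (by linarith) hXnn
      _ = X ^ 5 := h2.symm
      _ ≤ D ^ 3 * X ^ 5 := le_mul_of_one_le_left (by positivity) hD31
  obtain ⟨Y, hY⟩ : ∃ Y : ℝ, Y = X ^ (4 / 3 : ℝ) := ⟨_, rfl⟩
  have hYX : X ≤ Y := by
    have := Real.rpow_le_rpow_of_exponent_le (show 1 ≤ X by linarith)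
      (show (1 : ℝ) ≤ 4 / 3 by norm_num)
    rwa [Real.rpow_one, ← hY] at this
  have hY0 : 0 < Y := by linarith
  -- the error term
  have hδ : 4 * (10 * C * R ^ (8 / 3 : ℝ)) * (2 * X / R) ^ 3 ≤ 320 * C / D * Y := by
    have h1 : R ^ (8 / 3 : ℝ) * (2 * X / R) ^ 3 = 8 * (X ^ 3 * R ^ (-(1 / 3) : ℝ)) := by
      have h2 : R ^ (8 / 3 : ℝ) = R ^ (-(1 / 3) : ℝ) * R ^ 3 := by
        rw [← Real.rpow_natCast R 3, ← Real.rpow_add hR0]
        norm_num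
      rw [h2]
      field_simp
      ring
    have h2 : X ^ 3 * R ^ (-(1 / 3) : ℝ) = Y / D := by
      have h3 : R ^ (-(1 / 3) : ℝ) = D⁻¹ * X ^ (-(5 / 3) : ℝ) := by
        rw [hRX, Real.mul_rpow (by positivity) (by positivity), ← Real.rpow_natCast D 3,
          ← Real.rpow_natCast X 5, ← Real.rpow_mul hD0.le, ← Real.rpow_mul hXnn,
          ← Real.rpow_neg_one D]
        norm_num
      rw [h3, hY, ← Real.rpow_natCast X 3]
      have h4 : X ^ ((3:ℕ):ℝ) * (D⁻¹ * X ^ (-(5 / 3) : ℝ)) =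
          (X ^ ((3:ℕ):ℝ) * X ^ (-(5 / 3) : ℝ)) / D := by
        rw [div_eq_mul_inv]
        ring
      rw [h4, ← Real.rpow_add hXp]
      norm_num
    calc 4 * (10 * C * R ^ (8 / 3 : ℝ)) * (2 * X / R) ^ 3 =
          40 * C * (R ^ (8 / 3 : ℝ) * (2 * X / R) ^ 3) := by ring
      _ = 320 * C / D * Y := by rw [h1, h2]; ring
      _ ≤ _ := le_rfl
  by_contra hcon
  push Not at hcon
  -- few zeros
  obtain ⟨k, hk⟩ : ∃ k : ℕ, k = ⌊ε * X⌋₊ := ⟨_, rfl⟩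
  have hεX : 2 ≤ ε * X := by
    have h1 : 2 / ε ≤ X := hX02.trans hXX0
    rw [div_le_iff₀ hε0] at h1
    linarith
  have hk1 : 1 ≤ k := by rw [hk]; exact Nat.le_floor (by push_cast; linarith)
  have hkX : (k:ℝ) ≤ ε * X := by rw [hk]; exact Nat.floor_le (by linarith)
  have hkX2 : ε * X / 2 < k := by
    have h1 := Nat.lt_floor_add_one (ε * X)
    rw [← hk] at h1
    linarith
  have hfew : (f.roots.filter (fun w => ‖w‖ ≤ R)).card < k := by
    by_contra h1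
    push Not at h1
    have h2 : (k:ℝ) ≤ (f.roots.filter (fun w => ‖w‖ ≤ R)).card := by exact_mod_cast h1
    have h3 : K * (ε * X / 2) ≤ K * ((f.roots.filter (fun w => ‖w‖ ≤ R)).card : ℝ) :=
      mul_le_mul_of_nonneg_left (hkX2.le.trans h2) (by linarith)
    have h4 : D * X ≤ K * (ε * X / 2) := by
      rw [div_le_iff₀ hε0] at hK2
      nlinarith
    linarith
  have hmain := core k C c X R (320 * C / D * Y) hC hk1 hX10 hXR hδ f hgrow
    (fun x h1 h2 => hpos x h1 (h2.trans hXR5)) (fun x h1 h2 => hneg x h1 (h2.trans hXR5)) hc hfew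
  have hleft : c * (X / 10) ^ (4 / 3 : ℝ) = c1 * Y := by
    have h1 : X / 10 = 1 / 10 * X := by ring
    rw [h1, Real.mul_rpow (by norm_num) hXnn, hc1, hY]
    ring
  rw [hleft] at hmain
  -- the three terms
  have t1 : 4 * (k:ℝ) * Real.log (1 + 16 * k) ≤ 36 * ε * Y := by
    have hkp : (1:ℝ) ≤ k := by exact_mod_cast hk1
    have hk0 : (0:ℝ) < k := by linarith
    have h1 : Real.log (1 + 16 * k) ≤ 9 * (k:ℝ) ^ (1 / 3 : ℝ) := by
      have h2 : Real.log (1 + 16 * k) ≤ Real.log (27 * k) :=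
        Real.log_le_log (by positivity) (by linarith)
      have h3 : (27 * (k:ℝ)) = ((27 * (k:ℝ)) ^ (1 / 3 : ℝ)) ^ (3:ℕ) := by
        rw [← Real.rpow_natCast, ← Real.rpow_mul (by positivity)]
        norm_num
      have h4 : (27 * (k:ℝ)) ^ (1 / 3 : ℝ) = 3 * (k:ℝ) ^ (1 / 3 : ℝ) := by
        rw [Real.mul_rpow (by norm_num) hk0.le]
        congr 1
        rw [show (27:ℝ) = 3 ^ (3:ℕ) by norm_num, ← Real.rpow_natCast, ← Real.rpow_mul (by norm_num)]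
        norm_num
      rw [h3, Real.log_pow, h4] at h2
      have h5 : Real.log (3 * (k:ℝ) ^ (1 / 3 : ℝ)) ≤ 3 * (k:ℝ) ^ (1 / 3 : ℝ) := by
        have := Real.log_le_sub_one_of_pos (show 0 < 3 * (k:ℝ) ^ (1 / 3 : ℝ) by positivity)
        linarith
      push_cast at h2
      linarith
    have h2 : (k:ℝ) ^ (1 / 3 : ℝ) ≤ X ^ (1 / 3 : ℝ) :=
      Real.rpow_le_rpow hk0.le (hkX.trans (by nlinarith)) (by norm_num)
    have h3 : X * X ^ (1 / 3 : ℝ) = Y := by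
      rw [hY]
      nth_rewrite 1 [← Real.rpow_one X]
      rw [← Real.rpow_add hXp]
      norm_num
    calc 4 * (k:ℝ) * Real.log (1 + 16 * k) ≤ 4 * (k:ℝ) * (9 * (k:ℝ) ^ (1 / 3 : ℝ)) :=
          mul_le_mul_of_nonneg_left h1 (by positivity)
      _ = 36 * ((k:ℝ) * (k:ℝ) ^ (1 / 3 : ℝ)) := by ring
      _ ≤ 36 * ((ε * X) * X ^ (1 / 3 : ℝ)) := by
          apply mul_le_mul_of_nonneg_left _ (by norm_num)
          exact mul_le_mul hkX h2 (by positivity) (by positivity)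
      _ = 36 * ε * Y := by rw [← h3]; ring
  have t2 : 8 * (320 * C / D * Y) ≤ c1 / 4 * Y := by
    have h1 : 2560 * C / D ≤ c1 / 4 := by
      rw [div_le_iff₀ hD0]
      linarith
    calc 8 * (320 * C / D * Y) = 2560 * C / D * Y := by ring
      _ ≤ _ := mul_le_mul_of_nonneg_right h1 hY0.le
  have t3 : Real.log (16 * C) ≤ c1 / 4 * Y := by
    have h1 : 4 * Real.log (16 * C) / c1 ≤ Y := by linarith
    rw [div_le_iff₀ hc10] at h1
    linarith
  have t4 : 36 * ε * Y ≤ c1 / 4 * Y := mul_le_mul_of_nonneg_right (by linarith) hY0.le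
  have t5 : 0 < c1 * Y := mul_pos hc10 hY0
  linarith

end Pool.Agent.Y554.NE.Clp
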