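import Pool.Agent.Y554.NE.Final

/-! Project NE: the derivatives of the crossing polynomials at the critical point. -/

set_option autoImplicit false

namespace Pool.Agent.Y554.NE.Res

open Finset Polynomial Filter Topology

theorem der0 : S_DER := fun C => Pool.Agent.Y350.NE.DerZer.der C

theorem deriv_bound : ∃ C : ℝ, 1 ≤ C ∧ ∀ n : ℕ, 1 ≤ n → ∀ k : ℕ,
    ‖iteratedDeriv k (fun p : ℂ => (cross n).eval p) (1 / 2)‖ ≤
      C ^ (k + 1) * (k.factorial : ℝ) ^ (5 / 8 : ℝ) * ((n:ℝ) ^ (3 / 4 : ℝ)) ^ k := by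
  obtain ⟨C0, hC0, hfin⟩ := fin
  obtain ⟨C, hC, hder⟩ := der0 C0 hC0
  refine ⟨C, hC, ?_⟩
  intro n hn k
  have hs := sc_pos hn
  have hn0 : (0:ℝ) < n := by exact_mod_cast hn
  have h1 := hder (fun w => (fs n).eval w) (fs n).differentiable (fun w => fs_bound hfin hn w) k
  have e1 : (fun w : ℂ => (fs n).eval w) =
      fun w => (fun z : ℂ => (cross n).eval (1 / 2 + z)) (((sc n : ℝ) : ℂ) * w) := by
    funext w
    rw [fs_eval]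
    simp only
    congr 1
    ring
  have hsm : ContDiff ℂ k (fun z : ℂ => (cross n).eval (1 / 2 + z)) := by
    have h2 : ContDiff ℂ k (fun p : ℂ => (cross n).eval p) := (cross n).differentiable.contDiff
    exact h2.comp (contDiff_const.add contDiff_id)
  have e2 : iteratedDeriv k (fun w : ℂ => (fs n).eval w) 0 =
      ((sc n : ℝ) : ℂ) ^ k * iteratedDeriv k (fun p : ℂ => (cross n).eval p) (1 / 2) := by
    rw [e1, iteratedDeriv_comp_const_mul hsm]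
    simp only [mul_zero]
    have h3 := iteratedDeriv_comp_const_add k (fun p : ℂ => (cross n).eval p) (1 / 2)
    rw [h3]
    simp only [add_zero]
  rw [e2, norm_mul, norm_pow, Complex.norm_real, Real.norm_of_nonneg hs.le] at h1
  have e3 : (n:ℝ) ^ (3 / 4 : ℝ) * sc n = 1 := by
    unfold sc
    rw [← Real.rpow_add hn0]
    norm_num
  calc ‖iteratedDeriv k (fun p : ℂ => (cross n).eval p) (1 / 2)‖ =
        ((n:ℝ) ^ (3 / 4 : ℝ)) ^ k * (sc n ^ k *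
          ‖iteratedDeriv k (fun p : ℂ => (cross n).eval p) (1 / 2)‖) := by
        rw [← mul_assoc, ← mul_pow, e3, one_pow, one_mul]
    _ ≤ ((n:ℝ) ^ (3 / 4 : ℝ)) ^ k * (C ^ (k + 1) * (k.factorial : ℝ) ^ (5 / 8 : ℝ)) :=
        mul_le_mul_of_nonneg_left h1 (by positivity)
    _ = _ := by ring

/-- Growth, derivatives and zeros of the crossing polynomials. -/
theorem zeros_final2 : ∃ c C : ℝ, 0 < c ∧ 0 < C ∧
    (∀ n : ℕ, 1 ≤ n → ∀ p : ℂ,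
      ‖(cross n).eval p‖ ≤ C * Real.exp (C * ((n:ℝ) ^ 2 * ‖p - 1 / 2‖ ^ (8 / 3 : ℝ)))) ∧
    (∀ n : ℕ, 1 ≤ n → ∀ k : ℕ, ‖iteratedDeriv k (fun p : ℂ => (cross n).eval p) (1 / 2)‖ ≤
      C ^ (k + 1) * (k.factorial : ℝ) ^ (5 / 8 : ℝ) * ((n:ℝ) ^ (3 / 4 : ℝ)) ^ k) ∧
    (∀ n : ℕ, 1 ≤ n →
      (∀ w : ℂ, (cross n).eval w = 0 → c * (n:ℝ) ^ (-(3 / 4) : ℝ) ≤ ‖w - 1 / 2‖) ∧
      (∃ w : ℂ, (cross n).eval w = 0 ∧ ‖w - 1 / 2‖ ≤ C * (n:ℝ) ^ (-(3 / 4) : ℝ)) ∧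
      (∀ ρ : ℝ, 0 < ρ → (((cross n).roots.filter (fun w => ‖w - 1 / 2‖ ≤ ρ)).card : ℝ) ≤
        C * ((n:ℝ) ^ 2 * ρ ^ (8 / 3 : ℝ))) ∧
      (∀ ρ : ℝ, C * (n:ℝ) ^ (-(3 / 4) : ℝ) ≤ ρ → ρ ≤ 1 →
        c * ((n:ℝ) ^ 2 * ρ ^ (8 / 3 : ℝ)) ^ (1 / 10 : ℝ) ≤
          (((cross n).roots.filter (fun w => ‖w - 1 / 2‖ ≤ ρ)).card : ℝ))) := by
  obtain ⟨c, C, hc, hC, h1, h2⟩ := zeros_final
  obtain ⟨D, hD, h3⟩ := deriv_bound
  have m1 : C ≤ max C D := le_max_left _ _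
  have m2 : D ≤ max C D := le_max_right _ _
  refine ⟨c, max C D, hc, lt_max_of_lt_left hC, ?_, ?_, ?_⟩
  · intro n hn p
    refine (h1 n hn p).trans ?_
    gcongr
  · intro n hn k
    refine (h3 n hn k).trans ?_
    gcongr
  · intro n hn
    obtain ⟨g1, ⟨w, g2, g3⟩, g4, g5⟩ := h2 n hn
    have hn0 : (0:ℝ) < n := by exact_mod_cast hn
    refine ⟨g1, ⟨w, g2, g3.trans ?_⟩, fun ρ hρ => (g4 ρ hρ).trans ?_,
      fun ρ hρ hρ1 => g5 ρ (le_trans ?_ hρ) hρ1⟩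
    · gcongr
    · gcongr
    · gcongr

end Pool.Agent.Y554.NE.Res
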