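import Pool.Agent.Y554.NE.Res2
import Pool.Agent.W424.AR.Harnack

/-! Project NE: self-duality of the near-critical limits. -/

set_option autoImplicit false

namespace Pool.Agent.Y554.NE.Res

open Finset Polynomial Filter Topology

open H974 H12S H985T H389NS Pool.Agent.Y554.DP Pool.Agent.Y554.SN

/-- the increments in the width -/
theorem incr_bound {q : ℝ} (h0 : 0 ≤ q) (h1 : q ≤ 1) {n : ℕ} (hn : 1 ≤ n) {δ : ℝ}
    (hδ : δ ≤ 1 - hh q ((n:ℤ) + 1) (2 * n)) :
    (n:ℝ) * (δ * (hh q (2 * n) (2 * n) - hh q (2 * n + 1) (2 * n))) ≤ 1 := by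
  have hD : 0 ≤ hh q (2 * n) (2 * n) - hh q (2 * n + 1) (2 * n) := by
    have := hh_mono h0 h1 (w := 2 * (n:ℤ) + 1) (w' := 2 * n) (h := 2 * n) (h' := 2 * n)
      (by omega) (by omega) le_rfl
    linarith
  have key : ∀ N : ℕ, N ≤ n →
      (N:ℝ) * (δ * (hh q (2 * n) (2 * n) - hh q (2 * n + 1) (2 * n))) ≤
        hh q (2 * n + 1 - N) (2 * n) - hh q (2 * n + 1) (2 * n) := by
    intro N
    induction N with
    | zero => intro _; simp
    | succ N ih =>
      intro hN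
      have ih' := ih (by omega)
      have h2 := Pool.Agent.W424.AR.harnack h0 h1 (a := (N:ℤ)) (w := 2 * n) (h := 2 * n)
        (by omega) (by omega)
      have h3 : hh q (2 * n + 1 - N) (2 * n) ≤ hh q ((n:ℤ) + 1) (2 * n) :=
        hh_mono h0 h1 (by omega) (by omega) le_rfl
      have h4 : δ * (hh q (2 * n) (2 * n) - hh q (2 * n + 1) (2 * n)) ≤
          (1 - hh q (2 * n + 1 - N) (2 * n)) *
            (hh q (2 * n) (2 * n) - hh q (2 * n + 1) (2 * n)) :=
        mul_le_mul_of_nonneg_right (by linarith) hD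
      have e1 : 2 * (n:ℤ) + 1 - ((N + 1 : ℕ) : ℤ) = 2 * n - N := by push_cast; ring
      rw [e1]
      push_cast
      linarith
  have h2 := key n le_rfl
  have h3 := hh_le_one h0 h1 (2 * (n:ℤ) + 1 - n) (2 * n)
  have h4 := hh_nonneg h0 h1 (2 * (n:ℤ) + 1) (2 * n)
  linarith

/-- the increments tend to zero in the critical window -/
theorem incr_tendsto (x : ℝ) : Tendsto (fun n : ℕ =>
    hh (1 / 2 + x * sc n) (2 * n) (2 * n) - hh (1 / 2 + x * sc n) (2 * n + 1) (2 * n))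
      atTop (𝓝 0) := by
  obtain ⟨c, C, hc, hC, hw⟩ := Pool.Agent.W424.NC.win_lower_dual 2 (by norm_num)
  obtain ⟨y, hy⟩ : ∃ y : ℝ, y = |x| := ⟨_, rfl⟩
  have hy0 : 0 ≤ y := by rw [hy]; exact abs_nonneg x
  have hxy : x ≤ y := by rw [hy]; exact le_abs_self x
  have hxy' : -y ≤ x := by rw [hy]; exact neg_abs_le x
  obtain ⟨δ, hδ⟩ : ∃ δ : ℝ, δ = c * Real.exp (-(C * (2 * y ^ (4 / 3 : ℝ)))) := ⟨_, rfl⟩
  have hδ0 : 0 < δ := by rw [hδ]; positivity
  obtain ⟨N, hN⟩ := exists_nat_ge ((4 * y) ^ (4 / 3 : ℝ))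
  have hlim : Tendsto (fun n : ℕ => 1 / (n * δ)) atTop (𝓝 0) := by
    have h1 : Tendsto (fun n : ℕ => (1 / δ) * (1 / (n:ℝ))) atTop (𝓝 ((1 / δ) * 0)) :=
      tendsto_one_div_atTop_nhds_zero_nat.const_mul _
    rw [mul_zero] at h1
    refine h1.congr (fun n => ?_)
    rw [one_div_mul_one_div, mul_comm]
  refine tendsto_of_tendsto_of_tendsto_of_le_of_le' tendsto_const_nhds hlim ?_ ?_
  · filter_upwards [Filter.eventually_ge_atTop (max N 1)] with n hn
    have hn1 : 1 ≤ n := (le_max_right _ _).trans hn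
    have hs := sc_pos hn1
    have h1 : y * sc n ≤ 1 / 4 := sc_le hn1 hy0
      (hN.trans (by exact_mod_cast (le_max_left _ _).trans hn))
    have h2 : x * sc n ≤ y * sc n := mul_le_mul_of_nonneg_right hxy hs.le
    have h3 : -y * sc n ≤ x * sc n := mul_le_mul_of_nonneg_right hxy' hs.le
    have := hh_mono (q := 1 / 2 + x * sc n) (by linarith) (by linarith) (w := 2 * (n:ℤ) + 1)
      (w' := 2 * n) (h := 2 * n) (h' := 2 * n) (by omega) (by omega) le_rfl
    linarith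
  · filter_upwards [Filter.eventually_ge_atTop (max N 1)] with n hn
    have hn1 : 1 ≤ n := (le_max_right _ _).trans hn
    have hn0 : (0:ℝ) < n := by exact_mod_cast hn1
    have hs := sc_pos hn1
    have h1 : y * sc n ≤ 1 / 4 := sc_le hn1 hy0
      (hN.trans (by exact_mod_cast (le_max_left _ _).trans hn))
    have h2 : x * sc n ≤ y * sc n := mul_le_mul_of_nonneg_right hxy hs.le
    have h3 : -y * sc n ≤ x * sc n := mul_le_mul_of_nonneg_right hxy' hs.le
    have hyn : 0 ≤ y * sc n := mul_nonneg hy0 hs.le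
    have h4 := hw (1 / 2 - y * sc n) (by linarith) (by linarith) (n + 1) (2 * n) (by omega)
      (by omega) (by omega) (by omega)
    have h5 : ((n + 1 : ℕ) : ℝ) * (1 / 2 - (1 / 2 - y * sc n)) ^ (4 / 3 : ℝ) ≤
        2 * y ^ (4 / 3 : ℝ) := by
      have e1 : (1:ℝ) / 2 - (1 / 2 - y * sc n) = y * sc n := by ring
      rw [e1, Real.mul_rpow hy0 hs.le]
      have e2 : ((n + 1 : ℕ) : ℝ) ≤ 2 * n := by
        push_cast
        have : (1:ℝ) ≤ n := by exact_mod_cast hn1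
        linarith
      calc ((n + 1 : ℕ) : ℝ) * (y ^ (4 / 3 : ℝ) * sc n ^ (4 / 3 : ℝ)) ≤
            (2 * n) * (y ^ (4 / 3 : ℝ) * sc n ^ (4 / 3 : ℝ)) :=
            mul_le_mul_of_nonneg_right e2 (by positivity)
        _ = 2 * ((n * sc n ^ (4 / 3 : ℝ)) * y ^ (4 / 3 : ℝ)) := by ring
        _ = _ := by rw [sc_pow' hn1, one_mul]
    have h6 : δ ≤ 1 - hh (1 - (1 / 2 - y * sc n)) ((n + 1 : ℕ) : ℤ) ((2 * n : ℕ) : ℤ) := by
      refine le_trans ?_ h4
      rw [hδ]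
      gcongr
    have h7 : hh (1 / 2 + x * sc n) ((n:ℤ) + 1) (2 * n) ≤
        hh (1 - (1 / 2 - y * sc n)) ((n + 1 : ℕ) : ℤ) ((2 * n : ℕ) : ℤ) := by
      push_cast
      exact hh_mono_param (by linarith) (by linarith) (by linarith) _ _
    have h8 := incr_bound (q := 1 / 2 + x * sc n) (by linarith) (by linarith) hn1 (δ := δ)
      (by linarith)
    rw [le_div_iff₀ (by positivity)]
    calc (hh (1 / 2 + x * sc n) (2 * n) (2 * n) - hh (1 / 2 + x * sc n) (2 * n + 1) (2 * n)) *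
          (n * δ) = (n:ℝ) * (δ * (hh (1 / 2 + x * sc n) (2 * n) (2 * n) -
            hh (1 / 2 + x * sc n) (2 * n + 1) (2 * n))) := by ring
      _ ≤ 1 := h8

/-- duality in the critical window -/
theorem dual_sum (x : ℝ) {n : ℕ} (hn : 1 ≤ n) :
    hh (1 / 2 + x * sc n) (2 * n) (2 * n) + hh (1 / 2 + (-x) * sc n) (2 * n) (2 * n) - 1 =
      (hh (1 / 2 + (-x) * sc n) (2 * n) (2 * n) - hh (1 / 2 + (-x) * sc n) (2 * n + 1) (2 * n)) +
      (hh (1 / 2 + x * sc n) (2 * n) (2 * n) - hh (1 / 2 + x * sc n) (2 * n + 1) (2 * n)) := by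
  have h1 := hh_dual (q := 1 / 2 + (-x) * sc n) (w := 2 * (n:ℤ) + 1) (h := 2 * n) (by omega)
    (by omega)
  have e1 : (1:ℝ) - (1 / 2 + (-x) * sc n) = 1 / 2 + x * sc n := by ring
  have e2 : 2 * (n:ℤ) + 1 - 1 = 2 * n := by ring
  rw [e1, e2] at h1
  linarith

/-- The near-critical limits are self-dual. -/
theorem lim_dual {ν : ℕ → ℕ} {G : ℂ → ℂ} (hν : StrictMono ν) (hG : Lim ν G)
    (hGd : Differentiable ℂ G) : ∀ w, G w + G (-w) = 1 := by
  have hpt : ∀ w, Tendsto (fun k => near (ν k) w) atTop (𝓝 (G w)) := fun w =>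
    (tendstoLocallyUniformlyOn_univ.2 hG).tendsto_at (Set.mem_univ w)
  have hev : ∀ᶠ k in atTop, 1 ≤ ν k :=
    (hν.tendsto_atTop).eventually (Filter.eventually_ge_atTop 1)
  have hreal : ∀ x : ℝ, G (x : ℂ) + G (-(x : ℂ)) = 1 := by
    intro x
    have h1 : Tendsto (fun k => near (ν k) (x : ℂ) + near (ν k) (-(x : ℂ)) - 1) atTop
        (𝓝 (G (x : ℂ) + G (-(x : ℂ)) - 1)) :=
      ((hpt x).add (hpt (-(x : ℂ)))).sub tendsto_const_nhds
    have h2 : Tendsto (fun k : ℕ =>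
        (((hh (1 / 2 + (-x) * sc (ν k)) (2 * (ν k : ℕ)) (2 * (ν k : ℕ)) -
          hh (1 / 2 + (-x) * sc (ν k)) (2 * (ν k : ℕ) + 1) (2 * (ν k : ℕ))) +
        (hh (1 / 2 + x * sc (ν k)) (2 * (ν k : ℕ)) (2 * (ν k : ℕ)) -
          hh (1 / 2 + x * sc (ν k)) (2 * (ν k : ℕ) + 1) (2 * (ν k : ℕ))) : ℝ) : ℂ))
        atTop (𝓝 ((0:ℝ) : ℂ)) := by
      have h3 := ((incr_tendsto (-x)).add (incr_tendsto x)).comp hν.tendsto_atTop
      rw [add_zero] at h3
      exact (Complex.continuous_ofReal.tendsto 0).comp h3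
    have h4 : (fun k => near (ν k) (x : ℂ) + near (ν k) (-(x : ℂ)) - 1) =ᶠ[atTop] fun k : ℕ =>
        (((hh (1 / 2 + (-x) * sc (ν k)) (2 * (ν k : ℕ)) (2 * (ν k : ℕ)) -
          hh (1 / 2 + (-x) * sc (ν k)) (2 * (ν k : ℕ) + 1) (2 * (ν k : ℕ))) +
        (hh (1 / 2 + x * sc (ν k)) (2 * (ν k : ℕ)) (2 * (ν k : ℕ)) -
          hh (1 / 2 + x * sc (ν k)) (2 * (ν k : ℕ) + 1) (2 * (ν k : ℕ))) : ℝ) : ℂ) := by
      filter_upwards [hev] with k hk
      have e1 : (-(x : ℂ)) = ((-x : ℝ) : ℂ) := by push_cast; ring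
      rw [e1, near_real hk, near_real hk, ← dual_sum x hk]
      push_cast
      ring
    have h5 := tendsto_nhds_unique (h1.congr' h4) h2
    rw [Complex.ofReal_zero] at h5
    linear_combination h5
  -- identity theorem
  have hF : AnalyticOnNhd ℂ (fun w => G w + G (-w)) Set.univ := by
    apply Complex.analyticOnNhd_univ_iff_differentiable.2
    exact hGd.add (hGd.comp differentiable_neg)
  have hg : AnalyticOnNhd ℂ (fun _ : ℂ => (1:ℂ)) Set.univ := analyticOnNhd_const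
  have hseq : Tendsto (fun k : ℕ => ((1 / ((k:ℝ) + 1) : ℝ) : ℂ)) atTop (𝓝[≠] (0:ℂ)) := by
    rw [tendsto_nhdsWithin_iff]
    refine ⟨?_, Filter.Eventually.of_forall (fun k => ?_)⟩
    · have h1 := (Complex.continuous_ofReal.tendsto 0).comp
        (tendsto_one_div_add_atTop_nhds_zero_nat (𝕜 := ℝ))
      rw [Complex.ofReal_zero] at h1
      exact h1
    · simp only [Set.mem_compl_iff, Set.mem_singleton_iff, Complex.ofReal_eq_zero]
      positivity
  have hfreq : ∃ᶠ z in 𝓝[≠] (0:ℂ), (fun w => G w + G (-w)) z = (fun _ : ℂ => (1:ℂ)) z :=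
    hseq.frequently (Filter.Frequently.of_forall (fun k => hreal _))
  have hfin := AnalyticOnNhd.eq_of_frequently_eq hF hg hfreq
  intro w
  exact congrFun hfin w

end Pool.Agent.Y554.NE.Res
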