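import Pool.Agent.Y554.NE.Merge
import Pool.Agent.Y554.SN.Top
import Pool.Agent.Y948.NE.CH1
import Pool.Agent.Y180.NE.Q1
import Pool.Agent.Y100.NE.Base
import Pool.Agent.Y968.NE.Key
import Pool.Agent.Y21.NE.Tree
import Pool.Agent.Y67.NE.Exps
import Pool.Agent.Y433.NE.Suma
import Pool.Agent.Y434.NE.Sumb
import Pool.Agent.Y350.NE.Tay
import Pool.Agent.Y528.NE.Fin

/-! Project NE: assembly. -/

set_option autoImplicit false

namespace Pool.Agent.Y554.NE

theorem ch1 : S_CH1 := Pool.Agent.Y948.NE.ch1 Pool.Agent.Y554.SN.chain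

theorem tree : S_TREE := by
  intro V κ w M Y h1 h2 h3 h4 h5 x hx
  exact Pool.Agent.Y21.NE.tree V κ w M Y h1 h2 h3 h4 h5 x hx

theorem key : S_KEY :=
  Pool.Agent.Y968.NE.key (Pool.Agent.Y100.NE.base ch1 Pool.Agent.Y180.NE.q1p)
    (start Pool.Agent.Y180.NE.q1p) (merge Pool.Agent.Y180.NE.q1p)
    (Pool.Agent.Y239.NE.Out.out ch1 Pool.Agent.Y180.NE.q1p)

/-- The bound at all complex parameters. -/
theorem fin : S_FIN :=
  Pool.Agent.Y528.NE.fin Pool.Agent.Y350.NE.Tay.tay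
    (poly Pool.Agent.Y180.NE.q1p key tree Pool.Agent.Y239.NE.Dec.dec Pool.Agent.Y67.NE.exps
      Pool.Agent.Y433.NE.suma Pool.Agent.Y434.NE.sumb)

end Pool.Agent.Y554.NE
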