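import Pool.Agent.Y554.NE.Res3
import Pool.Agent.Y554.NE.Dual
import Pool.Agent.Y932.NE.Clp
import Pool.Agent.Y554.NE.Top
import Pool.Agent.Y406.NE.Lim
import Pool.Agent.Y350.NE.DerZer
import Pool.Agent.Y932.NE.Clk
import Pool.Agent.Y363.NE.Ord

/-! Project NE: the theorems. -/

set_option autoImplicit false

namespace Pool.Agent.Y554.NE.Res

open Finset Polynomial Filter Topology

theorem lim0 : S_LIM := fun P C => Pool.Agent.Y406.NE.lim P C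

theorem zer0 : S_ZER := fun C δ => Pool.Agent.Y350.NE.DerZer.zer C δ

/-- power law for the number of zeros of the rescaled polynomials -/
theorem fs_power : ∃ K : ℝ, 8 ≤ K ∧ ∀ n : ℕ, 1 ≤ n → ∀ R : ℝ, K ≤ R → R * sc n ≤ 1 →
    R ^ (4 / 15 : ℝ) ≤ K * (((fs n).roots.filter (fun w => ‖w‖ ≤ R)).card : ℝ) := by
  obtain ⟨C0, hC0, hfin⟩ := fin
  obtain ⟨c1, C1, hc1, hC1, hleft⟩ := fs_left
  obtain ⟨K, hK, hclp⟩ := Pool.Agent.Y932.NE.Clp.clp (max C0 C1) c1 (hC0.trans (le_max_left _ _)) hc1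
  refine ⟨max K 8, le_max_right _ _, ?_⟩
  intro n hn R hR hRs
  have hs := sc_pos hn
  have hKR : K ≤ R := (le_max_left _ _).trans hR
  have hR8 : 8 ≤ R := (le_max_right _ _).trans hR
  have hR0 : 0 < R := by linarith
  have h4 : 4 * R ^ (1 / 5 : ℝ) ≤ R := by
    have h1 : (4:ℝ) ≤ R ^ (4 / 5 : ℝ) := by
      calc (4:ℝ) = (4 ^ (5 / 4 : ℝ)) ^ (4 / 5 : ℝ) := by
            rw [← Real.rpow_mul (by norm_num)]
            norm_num
        _ ≤ R ^ (4 / 5 : ℝ) := by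
            apply Real.rpow_le_rpow (by positivity) _ (by norm_num)
            have h2 : (4:ℝ) ^ (5 / 4 : ℝ) ≤ 4 ^ (3 / 2 : ℝ) :=
              Real.rpow_le_rpow_of_exponent_le (by norm_num) (by norm_num)
            have h3 : (4:ℝ) ^ (3 / 2 : ℝ) = 8 := by
              rw [show (4:ℝ) = 2 ^ (2:ℝ) by norm_num, ← Real.rpow_mul (by norm_num)]
              norm_num
            linarith
    calc 4 * R ^ (1 / 5 : ℝ) ≤ R ^ (4 / 5 : ℝ) * R ^ (1 / 5 : ℝ) :=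
          mul_le_mul_of_nonneg_right h1 (by positivity)
      _ = R := by
          rw [← Real.rpow_add hR0]
          norm_num
  have hx : ∀ x : ℝ, x ≤ R ^ (1 / 5 : ℝ) → x * sc n ≤ 1 / 2 := by
    intro x hx
    have h1 := mul_le_mul_of_nonneg_right hx hs.le
    have h2 := mul_le_mul_of_nonneg_right h4 hs.le
    linarith
  refine (hclp (fs n) R hKR ?_ ?_ ?_).trans ?_
  · intro w
    refine (fs_bound hfin hn w).trans ?_
    have := le_max_left C0 C1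
    gcongr
  · intro x h0 h2
    exact fs_right hn h0 (hx x h2)
  · intro x h0 h2
    refine (hleft n hn x h0 (hx x h2)).trans ?_
    exact mul_le_mul_of_nonneg_right (le_max_right _ _) (Real.exp_pos _).le
  · exact mul_le_mul_of_nonneg_right (le_max_left _ _) (Nat.cast_nonneg _)

/-- Growth and zeros of the crossing polynomials. -/
theorem zeros_final : ∃ c C : ℝ, 0 < c ∧ 0 < C ∧
    (∀ n : ℕ, 1 ≤ n → ∀ p : ℂ,
      ‖(cross n).eval p‖ ≤ C * Real.exp (C * ((n:ℝ) ^ 2 * ‖p - 1 / 2‖ ^ (8 / 3 : ℝ)))) ∧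
    (∀ n : ℕ, 1 ≤ n →
      (∀ w : ℂ, (cross n).eval w = 0 → c * (n:ℝ) ^ (-(3 / 4) : ℝ) ≤ ‖w - 1 / 2‖) ∧
      (∃ w : ℂ, (cross n).eval w = 0 ∧ ‖w - 1 / 2‖ ≤ C * (n:ℝ) ^ (-(3 / 4) : ℝ)) ∧
      (∀ ρ : ℝ, 0 < ρ → (((cross n).roots.filter (fun w => ‖w - 1 / 2‖ ≤ ρ)).card : ℝ) ≤
        C * ((n:ℝ) ^ 2 * ρ ^ (8 / 3 : ℝ))) ∧
      (∀ ρ : ℝ, C * (n:ℝ) ^ (-(3 / 4) : ℝ) ≤ ρ → ρ ≤ 1 →
        c * ((n:ℝ) ^ 2 * ρ ^ (8 / 3 : ℝ)) ^ (1 / 10 : ℝ) ≤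
          (((cross n).roots.filter (fun w => ‖w - 1 / 2‖ ≤ ρ)).card : ℝ))) := by
  obtain ⟨c, C, hc, hC, h⟩ := zeros fin zer0 Pool.Agent.Y932.NE.Clo.clo
  obtain ⟨C0, hC0, hfin⟩ := fin
  obtain ⟨K, hK, hpow⟩ := fs_power
  have hK0 : 0 < K := by linarith
  have m1 : C ≤ max C (max C0 K) := le_max_left _ _
  have m2 : C0 ≤ max C (max C0 K) := (le_max_left _ _).trans (le_max_right _ _)
  have m3 : K ≤ max C (max C0 K) := (le_max_right _ _).trans (le_max_right _ _)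
  refine ⟨min c (1 / K), max C (max C0 K), lt_min hc (by positivity), lt_max_of_lt_left hC, ?_, ?_⟩
  · intro n hn p
    have h1 := hfin n (p - 1 / 2) hn
    rw [show (1:ℂ) / 2 + (p - 1 / 2) = p by ring] at h1
    rw [cross_eval]
    refine h1.trans ?_
    gcongr
  · intro n hn
    obtain ⟨h1, ⟨w, h2, h3⟩, h4⟩ := h n hn
    have hs := sc_pos hn
    have hn0 : (0:ℝ) < n := by exact_mod_cast hn
    refine ⟨fun w hw => le_trans ?_ (h1 w hw), ⟨w, h2, h3.trans ?_⟩,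
      fun ρ hρ => (h4 ρ hρ).trans ?_, ?_⟩
    · have := min_le_left c (1 / K)
      gcongr
    · gcongr
    · gcongr
    · intro ρ hρ hρ1
      have hρK : K * sc n ≤ ρ := (mul_le_mul_of_nonneg_right m3 hs.le).trans hρ
      have e0 : (n:ℝ) ^ (3 / 4 : ℝ) * sc n = 1 := by
        unfold sc
        rw [← Real.rpow_add hn0]
        norm_num
      have e1 : ((n:ℝ) ^ (3 / 4 : ℝ) * ρ) * sc n = ρ := by
        calc ((n:ℝ) ^ (3 / 4 : ℝ) * ρ) * sc n = ((n:ℝ) ^ (3 / 4 : ℝ) * sc n) * ρ := by ring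
          _ = ρ := by rw [e0, one_mul]
      have h5 := hpow n hn ((n:ℝ) ^ (3 / 4 : ℝ) * ρ) ?_ (by rw [e1]; exact hρ1)
      · rw [fs_roots hn, e1] at h5
        have hρ0 : 0 ≤ ρ := (mul_pos hK0 hs).le.trans hρK
        have e2 : ((n:ℝ) ^ 2 * ρ ^ (8 / 3 : ℝ)) ^ (1 / 10 : ℝ) =
            ((n:ℝ) ^ (3 / 4 : ℝ) * ρ) ^ (4 / 15 : ℝ) := by
          rw [Real.mul_rpow (by positivity) (by positivity),
            Real.mul_rpow (by positivity) hρ0, ← Real.rpow_natCast (n:ℝ) 2,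
            ← Real.rpow_mul hn0.le, ← Real.rpow_mul hn0.le, ← Real.rpow_mul hρ0]
          norm_num
        rw [e2]
        have h6 : 0 ≤ ((n:ℝ) ^ (3 / 4 : ℝ) * ρ) ^ (4 / 15 : ℝ) := by positivity
        calc min c (1 / K) * ((n:ℝ) ^ (3 / 4 : ℝ) * ρ) ^ (4 / 15 : ℝ) ≤
              1 / K * ((n:ℝ) ^ (3 / 4 : ℝ) * ρ) ^ (4 / 15 : ℝ) :=
              mul_le_mul_of_nonneg_right (min_le_right _ _) h6
          _ ≤ _ := by
              rw [one_div, inv_mul_le_iff₀ hK0]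
              exact h5
      · calc K = (K * sc n) * (n:ℝ) ^ (3 / 4 : ℝ) := by
              rw [mul_assoc, mul_comm (sc n), e0, mul_one]
          _ ≤ ρ * (n:ℝ) ^ (3 / 4 : ℝ) := mul_le_mul_of_nonneg_right hρK (by positivity)
          _ = _ := mul_comm _ _

/-- The near-critical limits. -/
theorem limits_final : ∃ c C : ℝ, 0 < c ∧ 0 < C ∧
    (∀ ν : ℕ → ℕ, StrictMono ν → ∃ (μ : ℕ → ℕ) (G : ℂ → ℂ), StrictMono μ ∧ Lim (ν ∘ μ) G) ∧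
    (∀ (ν : ℕ → ℕ) (u : ℝ → ℂ), StrictMono ν →
      (∀ x : ℝ, Tendsto (fun k => near (ν k) (x : ℂ)) atTop (𝓝 (u x))) →
      ∃ G : ℂ → ℂ, (∀ x : ℝ, G (x : ℂ) = u x) ∧ Lim ν G) ∧
    (∀ (ν : ℕ → ℕ) (G : ℂ → ℂ), StrictMono ν → Lim ν G →
      Differentiable ℂ G ∧ (∀ w, G w + G (-w) = 1) ∧ {w | G w = 0}.Infinite ∧
      (∀ w, ‖G w‖ ≤ C * Real.exp (C * ‖w‖ ^ (8 / 3 : ℝ))) ∧
      (∀ A B σ : ℝ, σ < 4 / 3 → ∃ w, A * Real.exp (B * ‖w‖ ^ σ) < ‖G w‖) ∧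
      (∀ x : ℝ, 0 ≤ x → ∃ a b : ℝ, G ((-x : ℝ) : ℂ) = (a : ℂ) ∧ G (x : ℂ) = (b : ℂ) ∧
        c * Real.exp (-(C * x ^ (4 / 3 : ℝ))) ≤ a ∧ a ≤ C * Real.exp (-(c * x ^ (4 / 3 : ℝ))) ∧
        c * Real.exp (-(C * x ^ (4 / 3 : ℝ))) ≤ 1 - b ∧
        1 - b ≤ C * Real.exp (-(c * x ^ (4 / 3 : ℝ))))) := by
  obtain ⟨c, C, hc, hC, -, h1, h2, h3⟩ := analytic fin lim0 Pool.Agent.Y363.NE.ord
  refine ⟨c, C, hc, by linarith, h1, h2, ?_⟩
  intro ν G hν hG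
  obtain ⟨g1, g2, g3, g4⟩ := h3 ν G hν hG
  exact ⟨g1, lim_dual hν hG g1, lim_zeros fin zer0 Pool.Agent.Y932.NE.Clk.clk hν hG g1, g2, g3, g4⟩

end Pool.Agent.Y554.NE.Res
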