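import Pool.Agent.Y554.NE.Start
import Pool.Agent.Y239.NE.Out

/-! Project NE: MERGE. -/

set_option autoImplicit false

namespace Pool.Agent.Y554.NE

open H974 H12S H985T H389NS Finset Pool.Agent.Y554.DP Pool.Agent.Y554.SN
open Pool.Agent.Y239.NE.Dec Pool.Agent.Y239.NE.Out

theorem dm_le_of {S : Finset Edg} {m : ℕ} (h : ∀ a ∈ S, ∀ b ∈ S, ds a b ≤ m) : dm S ≤ m := by
  unfold dm
  exact Finset.sup_le (fun a ha => Finset.sup_le (fun b hb => h a ha b hb))

theorem dm_mono {S T : Finset Edg} (h : S ⊆ T) : dm S ≤ dm T :=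
  dm_le_of (fun _ ha _ hb => ds_le_dm (h ha) (h hb))

theorem dm_union {U R : Finset Edg} {b u : Edg} {t : ℕ} (hu : u ∈ U) (hb : b ∈ R)
    (hbu : ds b u ≤ t + 1) : dm (U ∪ R) ≤ dm U + (t + 1) + dm R := by
  have key : ∀ v ∈ U, ∀ w ∈ R, ds v w ≤ dm U + (t + 1) + dm R := by
    intro v hv w hw
    have h1 := ds_tri v u w
    have h2 := ds_tri u b w
    have h3 := ds_le_dm hv hu
    have h4 := ds_le_dm hb hw
    rw [ds_comm u b] at h2
    omega
  apply dm_le_of
  intro v hv w hw
  rw [mem_union] at hv hw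
  rcases hv with hv | hv <;> rcases hw with hw | hw
  · exact (ds_le_dm hv hw).trans (by omega)
  · exact key v hv w hw
  · rw [ds_comm]
    exact key w hw v hv
  · exact (ds_le_dm hv hw).trans (by omega)

/-- the comparison of the products of the one-arm bounds -/
theorem merge_psi (hq : S_Q1) {n t : ℕ} {U R : Finset Edg} {x b u : Edg} (hn : 1 ≤ n)
    (hU : U ⊆ boxE n) (hR : R ⊆ boxE n) (hx : x ∈ U) (hu : u ∈ U) (hb : b ∈ R)
    (hbu : ds b u ≤ t + 1) :
    psi n x (max (t + 1) (dm U)) * psi n b (max t (dm R)) ≤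
      72 * (psi n b (ds b u) * psi n x (max (t + 1) (dm (U ∪ R)))) := by
  obtain ⟨M, hM⟩ : ∃ M, M = max (t + 1) (dm U) := ⟨_, rfl⟩
  obtain ⟨M', hM'⟩ : ∃ M', M' = max (t + 1) (dm (U ∪ R)) := ⟨_, rfl⟩
  have h1 := dm_union hu hb hbu
  have h2 : dm U ≤ dm (U ∪ R) := dm_mono subset_union_left
  have h3 : dm R ≤ dm (U ∪ R) := dm_mono subset_union_right
  rw [← hM, ← hM']
  have p0 := psi_nonneg n x M
  have p1 := psi_nonneg n b (ds b u)
  have p2 := psi_nonneg n x M'
  have p3 := psi_nonneg n b (max t (dm R))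
  rcases le_total (dm R) M with hc | hc
  · -- `R` is small
    have e1 : psi n x M ≤ ((3:ℕ):ℝ) ^ 2 * psi n x M' :=
      psi_cmp hq (by norm_num) (by omega) (by omega)
    have e2 : psi n b (max t (dm R)) ≤ psi n b t := psi_anti hq (le_max_left _ _)
    have e3 : psi n b t ≤ ((2:ℕ):ℝ) ^ 2 * psi n b (t + 1) :=
      psi_cmp hq (by norm_num) (by omega) (by omega)
    have e4 : psi n b (t + 1) ≤ psi n b (ds b u) := psi_anti hq hbu
    have e5 : psi n b (max t (dm R)) ≤ 4 * psi n b (ds b u) := by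
      push_cast at e3
      linarith
    push_cast at e1
    calc psi n x M * psi n b (max t (dm R)) ≤
          (3 ^ 2 * psi n x M') * (4 * psi n b (ds b u)) := mul_le_mul e1 e5 p3 (by positivity)
      _ = 36 * (psi n b (ds b u) * psi n x M') := by ring
      _ ≤ _ := by nlinarith [mul_nonneg p1 p2]
  · -- `R` is large
    have hMt : t + 1 ≤ M := by rw [hM]; exact le_max_left _ _
    have hMU : dm U ≤ M := by rw [hM]; exact le_max_right _ _
    have e0 : max t (dm R) = dm R := max_eq_right (by omega)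
    rw [e0]
    have c1 : 1 ≤ cap n M := by unfold cap; omega
    have c2 : cap n M ≤ cap n (dm R) := by unfold cap; omega
    obtain ⟨b1, b2⟩ := pos_le (hR hb)
    obtain ⟨x1, x2⟩ := pos_le (hU hx)
    have d1 : ds b x ≤ t + 1 + dm U := by
      have := ds_tri b u x
      have := ds_le_dm hu hx
      omega
    have hdist : |(pos b).1 - (pos x).1| ≤ 2 * (cap n M : ℕ) ∧
        |(pos b).2 - (pos x).2| ≤ 2 * (cap n M : ℕ) := by
      unfold ds at d1
      unfold pos at *
      rw [abs_le] at b1 b2 x1 x2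
      simp only at b1 b2 x1 x2 ⊢
      have hcap : cap n M = min M n := by unfold cap; omega
      rw [hcap]
      rcases le_total M n with hMn | hMn
      · rw [min_eq_left hMn]
        constructor <;> rw [abs_le] <;> omega
      · rw [min_eq_right hMn]
        constructor <;> rw [abs_le] <;> omega
    have e1 : psi n b (dm R) = psi n b M * q1 n (pos b) (cap n M) (cap n (dm R)) := by
      unfold psi
      rw [hq.1 n (pos b) 1 (cap n M) (cap n (dm R)) le_rfl c1 c2]
    have e2 : psi n x (dm R) = psi n x M * q1 n (pos x) (cap n M) (cap n (dm R)) := by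
      unfold psi
      rw [hq.1 n (pos x) 1 (cap n M) (cap n (dm R)) le_rfl c1 c2]
    have e3 : q1 n (pos b) (cap n M) (cap n (dm R)) ≤
        8 * q1 n (pos x) (cap n M) (cap n (dm R)) :=
      hq.2.2.2 n (pos b) (pos x) (cap n M) (cap n (dm R)) c1 c2 hdist.1 hdist.2
    have e4 : psi n b M ≤ psi n b (ds b u) := psi_anti hq (by omega)
    have e5 : psi n x (dm R) ≤ ((3:ℕ):ℝ) ^ 2 * psi n x M' :=
      psi_cmp hq (by norm_num) (by omega) (by omega)
    push_cast at e5
    have q0 : 0 ≤ q1 n (pos b) (cap n M) (cap n (dm R)) :=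
      (hq.2.1 n (pos b) (cap n M) (cap n (dm R)) c1 c2).1.le
    calc psi n x M * psi n b (dm R) =
          psi n x M * (psi n b M * q1 n (pos b) (cap n M) (cap n (dm R))) := by rw [e1]
      _ ≤ psi n x M * (psi n b (ds b u) * (8 * q1 n (pos x) (cap n M) (cap n (dm R)))) :=
          mul_le_mul_of_nonneg_left (mul_le_mul e4 e3 q0 p1) p0
      _ = 8 * psi n b (ds b u) * psi n x (dm R) := by rw [e2]; ring
      _ ≤ 8 * psi n b (ds b u) * (3 ^ 2 * psi n x M') :=
          mul_le_mul_of_nonneg_left e5 (by positivity)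
      _ = _ := by ring

theorem merge (hq : S_Q1) : S_MERGE := by
  classical
  refine ⟨72, by norm_num, ?_⟩
  rintro a n t k k' U R x b u ha hn htn hU hR hx hu hb hbu hfar
    ⟨EU, pU, rU, u1, u2, u3, u4⟩ ⟨ER, pR, rR, w1, w2, w3, w4⟩
  have hdis : ∀ v ∈ U, v ∉ R := by
    intro v hv hv'
    have h1 := hfar v hv v hv'
    have h2 : ds v v = 0 := by unfold ds; simp
    omega
  have hUR : Disjoint U R := Finset.disjoint_left.2 hdis
  have hnbU : ∀ e ∈ nb U (t / 2), ∃ v ∈ U, ds e v ≤ t / 2 := by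
    intro e he
    unfold nb at he
    obtain ⟨v, hv, h1⟩ := mem_biUnion.1 he
    exact ⟨v, hv, mem_blk_pos h1⟩
  have hnbR : ∀ e ∈ nb R (t / 2), ∃ v ∈ R, ds e v ≤ t / 2 := by
    intro e he
    unfold nb at he
    obtain ⟨v, hv, h1⟩ := mem_biUnion.1 he
    exact ⟨v, hv, mem_blk_pos h1⟩
  have hsubU : nb U (t / 2) \ U ⊆ nb (U ∪ R) (t / 2) \ (U ∪ R) := by
    intro e he
    rw [mem_sdiff] at he ⊢
    obtain ⟨v, hv, h1⟩ := hnbU e he.1
    refine ⟨?_, ?_⟩
    · unfold nb at he ⊢
      exact Finset.biUnion_subset_biUnion_of_subset_left _ subset_union_left he.1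
    · rw [mem_union]
      rintro (h | h)
      · exact he.2 h
      · have h2 := hfar v hv e h
        rw [ds_comm] at h2
        omega
  have hsubR : nb R (t / 2) \ R ⊆ nb (U ∪ R) (t / 2) \ (U ∪ R) := by
    intro e he
    rw [mem_sdiff] at he ⊢
    obtain ⟨v, hv, h1⟩ := hnbR e he.1
    refine ⟨?_, ?_⟩
    · unfold nb at he ⊢
      exact Finset.biUnion_subset_biUnion_of_subset_left _ subset_union_right he.1
    · rw [mem_union]
      rintro (h | h)
      · have h2 := hfar e h v hv
        omega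
      · exact he.2 h
  have hdreg : Disjoint (nb U (t / 2) \ U) (nb R (t / 2) \ R) := by
    rw [Finset.disjoint_left]
    intro e he he'
    obtain ⟨v, hv, h1⟩ := hnbU e (mem_sdiff.1 he).1
    obtain ⟨w, hw, h2⟩ := hnbR e (mem_sdiff.1 he').1
    have h3 := hfar v hv w hw
    have h4 := ds_tri v e w
    rw [ds_comm v e] at h4
    omega
  have hres : ∀ {A B : Finset Edg}, A ⊆ B → ∀ {F F' : Finset Edg}, F ∩ B = F' ∩ B →
      F ∩ A = F' ∩ A := by
    intro A B hAB F F' h
    have e1 : F ∩ A = (F ∩ B) ∩ A := by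
      rw [Finset.inter_assoc, Finset.inter_eq_right.mpr hAB]
    have e2 : F' ∩ A = (F' ∩ B) ∩ A := by
      rw [Finset.inter_assoc, Finset.inter_eq_right.mpr hAB]
    rw [e1, e2, h]
  refine ⟨fun F => EU F ∧ ER F, fun y => if y ∈ U then pU y else if y = b then u else pR y,
    fun y => if y ∈ U then rU y else rR y + rU u + 1, ?_, ?_, ?_, ?_⟩
  · intro F F' hFF
    exact and_congr (u1 F F' (hres hsubU hFF)) (w1 F F' (hres hsubR hFF))
  · intro S' hS' hS'n hS'd F hF hQ
    refine ⟨u2 S' (subset_union_left.trans hS') hS'n ?_ F hF hQ,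
      w2 S' (subset_union_right.trans hS') hS'n ?_ F hF hQ⟩
    · intro v hv w hw
      by_cases hwR : w ∈ R
      · exact hfar v hv w hwR
      · refine hS'd v (mem_union_left _ hv) w ?_
        rw [mem_sdiff] at hw ⊢
        refine ⟨hw.1, ?_⟩
        rw [mem_union]
        rintro (h | h)
        · exact hw.2 h
        · exact hwR h
    · intro v hv w hw
      by_cases hwU : w ∈ U
      · rw [ds_comm]
        exact hfar w hwU v hv
      · refine hS'd v (mem_union_right _ hv) w ?_
        rw [mem_sdiff] at hw ⊢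
        refine ⟨hw.1, ?_⟩
        rw [mem_union]
        rintro (h | h)
        · exact hwU h
        · exact hw.2 h
  · intro y hy hyx
    by_cases hyU : y ∈ U
    · obtain ⟨g1, g2, g3⟩ := u3 y hyU hyx
      simp only [if_pos hyU, if_pos g1]
      exact ⟨mem_union_left _ g1, g2, g3⟩
    · have hyR : y ∈ R := (mem_union.1 hy).resolve_left hyU
      by_cases hyb : y = b
      · simp only [if_neg hyU, if_pos hyb, if_pos hu]
        refine ⟨mem_union_left _ hu, by omega, ?_⟩
        rw [hyb]
        exact hbu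
      · obtain ⟨g1, g2, g3⟩ := w3 y hyR hyb
        have g4 : pR y ∉ U := fun h => hdis _ h g1
        simp only [if_neg hyU, if_neg hyb, if_neg g4]
        exact ⟨mem_union_right _ g1, by omega, g3⟩
  · -- the probability
    have ha0 : 0 ≤ a := by linarith
    have hind : PQ (1 / 2) (boxE n) (fun F => EU F ∧ ER F) =
        PQ (1 / 2) (boxE n) EU * PQ (1 / 2) (boxE n) ER := by
      unfold PQ
      refine Pr_indep (S := (nb U (t / 2) \ U) ∩ boxE n) (T := (nb R (t / 2) \ R) ∩ boxE n)
        inter_subset_right inter_subset_right ?_ ?_ ?_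
      · exact hdreg.mono inter_subset_left inter_subset_left
      · intro F hF
        apply u1
        ext e
        simp only [mem_inter]
        constructor
        · rintro ⟨h1, h2⟩
          exact ⟨⟨h1, h2, hF h1⟩, h2⟩
        · rintro ⟨⟨h1, -⟩, h2⟩
          exact ⟨h1, h2⟩
      · intro F hF
        apply w1
        ext e
        simp only [mem_inter]
        constructor
        · rintro ⟨h1, h2⟩
          exact ⟨⟨h1, h2, hF h1⟩, h2⟩
        · rintro ⟨⟨h1, -⟩, h2⟩
          exact ⟨h1, h2⟩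
    rw [hind]
    obtain ⟨PU, hPU⟩ : ∃ PU : ℝ, PU = ∏ y ∈ U.erase x, psi n y (ds y (pU y)) := ⟨_, rfl⟩
    obtain ⟨PR, hPR⟩ : ∃ PR : ℝ, PR = ∏ y ∈ R.erase b, psi n y (ds y (pR y)) := ⟨_, rfl⟩
    have hPU0 : 0 ≤ PU := by rw [hPU]; exact Finset.prod_nonneg (fun y _ => psi_nonneg _ _ _)
    have hPR0 : 0 ≤ PR := by rw [hPR]; exact Finset.prod_nonneg (fun y _ => psi_nonneg _ _ _)
    have hprod : (∏ y ∈ (U ∪ R).erase x,
        psi n y (ds y (if y ∈ U then pU y else if y = b then u else pR y))) =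
        PU * (psi n b (ds b u) * PR) := by
      have e1 : (U ∪ R).erase x = (U.erase x) ∪ R := by
        rw [Finset.erase_union_distrib, Finset.erase_eq_of_notMem (hdis x hx)]
      have e2 : Disjoint (U.erase x) R := hUR.mono_left (Finset.erase_subset _ _)
      rw [e1, Finset.prod_union e2, hPU]
      congr 1
      · apply Finset.prod_congr rfl
        intro y hy
        rw [if_pos (Finset.mem_of_mem_erase hy)]
      · rw [← Finset.mul_prod_erase R _ hb, hPR]
        have hbU : b ∉ U := fun h => hdis b h hb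
        rw [if_neg hbU, if_pos rfl]
        congr 1
        apply Finset.prod_congr rfl
        intro y hy
        rw [if_neg (fun h => hdis y h (Finset.mem_of_mem_erase hy)),
          if_neg (Finset.ne_of_mem_erase hy)]
    rw [hprod]
    rw [← hPU] at u4
    rw [← hPR] at w4
    have hmp := merge_psi hq hn hU hR hx hu hb hbu
    have z1 := psi_nonneg n x (max (t + 1) (dm U))
    have z2 := psi_nonneg n b (max t (dm R))
    have z3 := psi_nonneg n b (ds b u)
    have z4 := psi_nonneg n x (max (t + 1) (dm (U ∪ R)))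
    have z5 : 0 ≤ PQ (1 / 2) (boxE n) ER := Pr_nonneg (fun e => by norm_num) _ _
    have hak : 0 ≤ a ^ k := pow_nonneg ha0 _
    have hak' : 0 ≤ a ^ k' := pow_nonneg ha0 _
    calc PQ (1 / 2) (boxE n) EU * PQ (1 / 2) (boxE n) ER ≤
          (a ^ k * PU * psi n x (max (t + 1) (dm U))) *
            (a ^ k' * PR * psi n b (max t (dm R))) :=
          mul_le_mul u4 w4 z5 (by positivity)
      _ = a ^ k * a ^ k' * PU * PR *
            (psi n x (max (t + 1) (dm U)) * psi n b (max t (dm R))) := by ring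
      _ ≤ a ^ k * a ^ k' * PU * PR *
            (72 * (psi n b (ds b u) * psi n x (max (t + 1) (dm (U ∪ R))))) :=
          mul_le_mul_of_nonneg_left hmp (by positivity)
      _ ≤ a ^ k * a ^ k' * PU * PR *
            (a * (psi n b (ds b u) * psi n x (max (t + 1) (dm (U ∪ R))))) := by
          apply mul_le_mul_of_nonneg_left _ (by positivity)
          exact mul_le_mul_of_nonneg_right ha (mul_nonneg z3 z4)
      _ = _ := by rw [pow_succ, pow_add]; ring

end Pool.Agent.Y554.NE
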