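import Pool.Agent.Y554.NE.Stm

/-! Project NE: the polymer sum. -/

set_option autoImplicit false

namespace Pool.Agent.Y554.NE

open H974 H12S H985T H389NS Finset Pool.Agent.Y554.DP Pool.Agent.Y554.SN

theorem psi_nonneg (n : ℕ) (e : Edg) (s : ℕ) : 0 ≤ psi n e s := by
  unfold psi q1
  apply Real.rpow_nonneg
  unfold qc
  positivity

theorem psi_anti (hq : S_Q1) {n : ℕ} {e : Edg} {s s' : ℕ} (h : s ≤ s') :
    psi n e s' ≤ psi n e s := by
  unfold psi
  have h1 : 1 ≤ cap n s := by unfold cap; omega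
  have h2 : cap n s ≤ cap n s' := by unfold cap; omega
  rw [← hq.1 n (pos e) 1 (cap n s) (cap n s') le_rfl h1 h2]
  have h3 := (hq.2.1 n (pos e) 1 (cap n s) le_rfl h1).1
  have h4 := (hq.2.1 n (pos e) (cap n s) (cap n s') h1 h2).2
  calc q1 n (pos e) 1 (cap n s) * q1 n (pos e) (cap n s) (cap n s') ≤
        q1 n (pos e) 1 (cap n s) * 1 := mul_le_mul_of_nonneg_left h4 h3.le
    _ = _ := mul_one _

theorem aux {a : ℝ} (ha1 : 1 ≤ a) {k k' : ℕ} (hk : k ≤ k') {Q e1 e2 : ℝ} (hQ : 0 ≤ Q)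
    (h1 : 0 ≤ e1) (h2 : e1 ≤ e2) : a ^ k * Q * e1 ≤ a ^ k' * Q * e2 := by
  have h3 : a ^ k ≤ a ^ k' := pow_le_pow_right₀ ha1 hk
  have h4 : 0 ≤ a ^ k' * Q := mul_nonneg (pow_nonneg (by linarith) _) hQ
  exact mul_le_mul (mul_le_mul_of_nonneg_right h3 hQ) h2 h1 h4

theorem poly (hq : S_Q1) (hk : S_KEY) (ht : S_TREE) (hd : S_DEC) (he : S_EXPS) (ha : S_SUMA)
    (hb : S_SUMB) : S_POLY := by
  classical
  obtain ⟨a, ha1, hkey⟩ := hk
  obtain ⟨CA, hCA, hsa⟩ := ha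
  obtain ⟨CB, hCB, hsb⟩ := hb
  refine ⟨3 * CA * a ^ 4 * CB, ?_, ?_⟩
  · have h1 : 1 ≤ a ^ 4 := one_le_pow₀ ha1
    have h2 : 1 ≤ CA * a ^ 4 := one_le_mul_of_one_le_of_one_le hCA h1
    have h3 : 1 ≤ CA * a ^ 4 * CB := one_le_mul_of_one_le_of_one_le h2 hCB
    nlinarith
  intro n m Y hm hmn hY hsmall
  have hn : 1 ≤ n := hm.trans hmn
  have ha0 : 0 < a := by linarith
  obtain ⟨κ, hκ⟩ : ∃ κ : Edg → Edg → ℝ, κ = fun y z => if ds y z ≤ m then
    psi n y (ds y z) else 0 := ⟨_, rfl⟩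
  have hκ0 : ∀ y z, 0 ≤ κ y z := by
    intro y z
    rw [hκ]
    simp only
    split_ifs
    · exact psi_nonneg _ _ _
    · exact le_rfl
  have H : ∀ (S : Finset Edg) (x : Edg), ∃ W : ℝ, 0 ≤ W ∧ (S ⊆ boxE n → x ∈ S →
      (∃ (par : Edg → Edg) (rk : Edg → ℕ), (∀ y ∈ S, y ≠ x → par y ∈ S ∧ rk (par y) < rk y) ∧
        W ≤ ∏ y ∈ S.erase x, κ y (par y)) ∧
      (conn m S → Loc n m S (a ^ (4 * S.card) * W * psi n x m))) := by
    intro S x
    by_cases hc : S ⊆ boxE n ∧ x ∈ S ∧ conn m S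
    · obtain ⟨h1, h2, h3⟩ := hc
      obtain ⟨Ev, par, rk, g1, g2, g3, g4⟩ := hkey n m m S x hn le_rfl hmn h1 h2 h3
      refine ⟨∏ y ∈ S.erase x, psi n y (ds y (par y)),
        Finset.prod_nonneg (fun y _ => psi_nonneg _ _ _), fun _ _ => ⟨⟨par, rk, ?_, ?_⟩, fun _ =>
          ⟨Ev, g1, g2, ?_⟩⟩⟩
      · intro y hy hyx
        exact ⟨(g3 y hy hyx).1, (g3 y hy hyx).2.1⟩
      · apply le_of_eq
        apply Finset.prod_congr rfl
        intro y hy
        rw [Finset.mem_erase] at hy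
        rw [hκ]
        simp only
        rw [if_pos (g3 y hy.2 hy.1).2.2]
      · exact g4.trans (aux ha1 (Nat.sub_le _ _)
          (Finset.prod_nonneg (fun y _ => psi_nonneg _ _ _))
          (psi_nonneg n x (max m (dm S))) (psi_anti hq (le_max_left _ _)))
    · refine ⟨0, le_rfl, fun h1 h2 => ⟨⟨fun _ => x, fun y => if y = x then 0 else 1, ?_, ?_⟩,
        fun h3 => absurd ⟨h1, h2, h3⟩ hc⟩⟩
      · intro y _ hyx
        simp [h2, hyx]
      · exact Finset.prod_nonneg (fun y _ => hκ0 _ _)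
  choose W hW0 hW using H
  obtain ⟨b, hbdef⟩ : ∃ b : Finset Edg → ℝ, b = fun R => ∑ x ∈ R,
    a ^ (4 * R.card) * W R x * psi n x m := ⟨_, rfl⟩
  have hterm : ∀ R x, 0 ≤ a ^ (4 * R.card) * W R x * psi n x m := fun R x =>
    mul_nonneg (mul_nonneg (by positivity) (hW0 _ _)) (psi_nonneg _ _ _)
  have hb0 : ∀ R, 0 ≤ b R := by
    intro R
    rw [hbdef]
    exact Finset.sum_nonneg (fun x _ => hterm R x)
  have hloc : ∀ R ⊆ boxE n, R.Nonempty → conn m R → Loc n m R (b R) := by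
    rintro R h1 ⟨x, h2⟩ h3
    obtain ⟨Ev, g1, g2, g3⟩ := (hW R x h1 h2).2 h3
    refine ⟨Ev, g1, g2, g3.trans ?_⟩
    rw [hbdef]
    exact Finset.single_le_sum (f := fun x => a ^ (4 * R.card) * W R x * psi n x m)
      (fun y _ => hterm R y) h2
  have hex := he (boxE n) (fun S => Y ^ S.card * PQ (1 / 2) (boxE n) (Qe n S))
    (fun R => Y ^ R.card * b R) (fun R => mul_nonneg (by positivity) (hb0 R)) (by
      intro S hS
      obtain ⟨P, p1, p2, p3, p4⟩ := hd n m b hloc S hS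
      refine ⟨P, fun R hR => ⟨(p1 R hR).1.trans hS, (p1 R hR).2.1⟩, p3, ?_⟩
      have hcard : S.card = ∑ R ∈ P, R.card := by
        rw [← p3]
        exact Finset.card_biUnion (fun R hR R' hR' hne => p2 R hR R' hR' hne)
      calc Y ^ S.card * PQ (1 / 2) (boxE n) (Qe n S) ≤ Y ^ S.card * ∏ R ∈ P, b R :=
            mul_le_mul_of_nonneg_left p4 (by positivity)
        _ = ∏ R ∈ P, (Y ^ R.card * b R) := by
            rw [Finset.prod_mul_distrib, hcard, Finset.prod_pow_eq_pow_sum])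
  refine hex.trans (Real.exp_le_exp.2 ?_)
  -- the sum of the weights
  have hYa : 0 ≤ a ^ 4 * Y := by positivity
  have hm0 : (0:ℝ) ≤ (m:ℝ) ^ (3 / 4 : ℝ) := by positivity
  have htree := ht (boxE n) κ W (CA * (m:ℝ) ^ (3 / 4 : ℝ)) (a ^ 4 * Y) hκ0 (by
      intro z hz
      refine le_trans (le_of_eq ?_) (hsa n m z hz hm hmn)
      rw [hκ, Finset.sum_filter]) hYa (by
      have h1 : 0 ≤ CA * a ^ 4 * Y * (m:ℝ) ^ (3 / 4 : ℝ) := by positivity
      nlinarith) (fun S hS x hx => (hW S x hS hx).1)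
  have hswap : ∑ R ∈ (boxE n).powerset.filter (fun R => R.Nonempty), Y ^ R.card * b R ≤
      ∑ x ∈ boxE n, psi n x m * ∑ R ∈ (boxE n).powerset.filter (fun R => x ∈ R),
        (a ^ 4 * Y) ^ R.card * W R x := by
    have h1 : ∀ R ∈ (boxE n).powerset, Y ^ R.card * b R =
        ∑ x ∈ boxE n, if x ∈ R then psi n x m * ((a ^ 4 * Y) ^ R.card * W R x) else 0 := by
      intro R hR
      rw [Finset.mem_powerset] at hR
      rw [← Finset.sum_filter, Finset.filter_mem_eq_inter, Finset.inter_eq_right.2 hR, hbdef]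
      simp only
      rw [Finset.mul_sum]
      apply Finset.sum_congr rfl
      intro x _
      rw [mul_pow, ← pow_mul]
      ring
    calc ∑ R ∈ (boxE n).powerset.filter (fun R => R.Nonempty), Y ^ R.card * b R
        ≤ ∑ R ∈ (boxE n).powerset, Y ^ R.card * b R :=
          Finset.sum_le_sum_of_subset_of_nonneg (Finset.filter_subset _ _)
            (fun R _ _ => mul_nonneg (by positivity) (hb0 R))
      _ = ∑ R ∈ (boxE n).powerset, ∑ x ∈ boxE n,
            if x ∈ R then psi n x m * ((a ^ 4 * Y) ^ R.card * W R x) else 0 :=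
          Finset.sum_congr rfl h1
      _ = ∑ x ∈ boxE n, ∑ R ∈ (boxE n).powerset,
            if x ∈ R then psi n x m * ((a ^ 4 * Y) ^ R.card * W R x) else 0 :=
          Finset.sum_comm
      _ = _ := by
          apply Finset.sum_congr rfl
          intro x _
          rw [Finset.mul_sum, Finset.sum_filter]
  refine hswap.trans ?_
  calc ∑ x ∈ boxE n, psi n x m * ∑ R ∈ (boxE n).powerset.filter (fun R => x ∈ R),
        (a ^ 4 * Y) ^ R.card * W R x
      ≤ ∑ x ∈ boxE n, psi n x m * (3 * (a ^ 4 * Y)) := by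
        apply Finset.sum_le_sum
        intro x hx
        exact mul_le_mul_of_nonneg_left (htree x hx) (psi_nonneg _ _ _)
    _ = 3 * (a ^ 4 * Y) * ∑ x ∈ boxE n, psi n x m := by
        rw [← Finset.sum_mul, mul_comm]
    _ ≤ 3 * (a ^ 4 * Y) * (CB * ((n:ℝ) ^ 2 * (m:ℝ) ^ (-(5 / 4) : ℝ))) :=
        mul_le_mul_of_nonneg_left (hsb n m hm hmn) (by positivity)
    _ ≤ 3 * CA * a ^ 4 * CB * Y * ((n:ℝ) ^ 2 * (m:ℝ) ^ (-(5 / 4) : ℝ)) := by
        have h1 : 0 ≤ 3 * (a ^ 4 * Y) * (CB * ((n:ℝ) ^ 2 * (m:ℝ) ^ (-(5 / 4) : ℝ))) := by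
          positivity
        nlinarith

end Pool.Agent.Y554.NE
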