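import Pool.Agent.Y554.NE.Stm
import Pool.Agent.Y554.NE.Stm2
import Pool.Agent.Y554.SN.Res
import Pool.Agent.W424.NC.Win
import Pool.Agent.TH291.NW.Low1

/-! Project NE: the crossing polynomial in elementary terms. -/

set_option autoImplicit false

namespace Pool.Agent.Y554.NE.Res

open Finset Polynomial

/-- Vertices of the square lattice. -/
abbrev Vertex := ℤ × ℤ

/-- Edges: `(x, y, true)` joins `(x, y)` to `(x + 1, y)` and `(x, y, false)` joins `(x, y)` to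
`(x, y + 1)`. -/
abbrev Edge := ℤ × ℤ × Bool

/-- First endpoint of an edge. -/
def src (e : Edge) : Vertex := (e.1, e.2.1)

/-- Second endpoint of an edge. -/
def tgt (e : Edge) : Vertex := if e.2.2 then (e.1 + 1, e.2.1) else (e.1, e.2.1 + 1)

/-- `u` and `v` are joined by an edge of `F`. -/
def Adj (F : Finset Edge) (u v : Vertex) : Prop :=
  ∃ e ∈ F, (src e = u ∧ tgt e = v) ∨ (src e = v ∧ tgt e = u)

/-- `u` and `v` are joined by a path of edges of `F`. -/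
def Conn (F : Finset Edge) (u v : Vertex) : Prop := Relation.ReflTransGen (Adj F) u v

/-- The set of the edges in the square `[-n, n]²`. -/
noncomputable def edges (n : ℕ) : Finset Edge :=
  (Icc (-(n : ℤ)) n ×ˢ (Icc (-(n : ℤ)) n ×ˢ univ)).filter
    (fun e => (tgt e).1 ≤ n ∧ (tgt e).2 ≤ n)

/-- If `F` is the set of the open edges of the square, there is an open path from its left side to
its right side. -/
def Crossed (n : ℕ) (F : Finset Edge) : Prop :=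
  ∃ y y' : ℤ, |y| ≤ n ∧ |y'| ≤ n ∧ Conn F (-(n : ℤ), y) ((n : ℤ), y')

open Classical in
/-- The crossing polynomial of the square `[-n, n]²`: its value at `p ∈ [0, 1]` is the probability
of an open path from the left side to the right side, when every edge is open with probability `p`,
independently. -/
noncomputable def cross (n : ℕ) : ℂ[X] :=
  ∑ F ∈ (edges n).powerset.filter (Crossed n), X ^ F.card * (1 - X) ^ ((edges n).card - F.card)

/-! ### Comparison with the library -/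

open H974 H12S H985T H389NS Pool.Agent.Y554.DP Pool.Agent.Y554.SN

theorem edges_eq (n : ℕ) : edges n = boxE n := SN.Res.edges_eq n

theorem crossed_iff (n : ℕ) (F : Finset Edge) :
    Crossed n F ↔ Cn (Lf n) (Rt n) (↑F : Set Edg) := by
  constructor
  · rintro ⟨y, y', h1, h2, h3⟩
    rw [abs_le] at h1 h2
    exact ⟨_, ⟨rfl, h1.1, h1.2⟩, _, ⟨rfl, h2.1, h2.2⟩, h3⟩
  · rintro ⟨⟨u1, u2⟩, ⟨h1, h2, h3⟩, ⟨v1, v2⟩, ⟨h4, h5, h6⟩, h7⟩
    simp only at h1 h2 h3 h4 h5 h6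
    subst h1 h4
    exact ⟨u2, v2, abs_le.2 ⟨h2, h3⟩, abs_le.2 ⟨h5, h6⟩, h7⟩

theorem cross_eval (n : ℕ) (p : ℂ) : (cross n).eval p = Zc n p := by
  classical
  unfold cross Zc
  rw [Polynomial.eval_finsetSum, edges_eq, Finset.sum_filter]
  apply Finset.sum_congr rfl
  intro F _
  unfold fC
  by_cases h : Crossed n F
  · rw [if_pos h, ind_of ((crossed_iff n F).1 h)]
    simp
  · rw [if_neg h, ind_not_of (fun h' => h ((crossed_iff n F).2 h'))]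
    simp

/-- real parameters -/
theorem Zc_real (n : ℕ) (p : ℝ) : Zc n (p : ℂ) =
    ((Pr (fun _ => p) (boxE n) (fun F => Cn (Lf n) (Rt n) (↑F : Set Edg)) : ℝ) : ℂ) := by
  unfold Zc Pr Ex
  push_cast
  apply Finset.sum_congr rfl
  intro F hF
  rw [mem_powerset] at hF
  rw [Finset.prod_const, Finset.prod_const, Finset.card_sdiff_of_subset hF]
  unfold fC
  ring

theorem pr_eq {n : ℕ} (hn : 1 ≤ n) (p : ℝ) :
    Pr (fun _ => p) (boxE n) (fun F => Cn (Lf n) (Rt n) (↑F : Set Edg)) =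
      hh p ((2 * n : ℕ) : ℤ) ((2 * n : ℕ) : ℤ) := by
  have hsub : LRE (-(n:ℤ)) n (-(n:ℤ)) n ⊆ boxE n := LRE_subset_RE
  have h2 := pr_LRc p hsub
  have h3 : (n:ℤ) - -(n:ℤ) = ((2 * n : ℕ) : ℤ) := by push_cast; ring
  rw [h3] at h2
  rw [← h2]
  apply Pr_congr
  intro F hF
  exact TH291.NW.cn_lr (by omega) hF

theorem cross_real {n : ℕ} (hn : 1 ≤ n) (p : ℝ) : (cross n).eval (p : ℂ) =
    ((hh p ((2 * n : ℕ) : ℤ) ((2 * n : ℕ) : ℤ) : ℝ) : ℂ) := by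
  rw [cross_eval, Zc_real, pr_eq hn]

theorem cross_half {n : ℕ} (hn : 1 ≤ n) {p : ℝ} (h1 : 1 / 2 ≤ p) (h2 : p ≤ 1) :
    1 / 2 ≤ ‖(cross n).eval (p : ℂ)‖ ∧ ‖(cross n).eval (p : ℂ)‖ ≤ 1 := by
  have h3 : (1:ℝ) / 2 ≤ hh p ((2 * n : ℕ) : ℤ) ((2 * n : ℕ) : ℤ) :=
    (hh_square _ (by omega)).trans (hh_mono_param (by norm_num) h1 h2 _ _)
  have h4 : hh p ((2 * n : ℕ) : ℤ) ((2 * n : ℕ) : ℤ) ≤ 1 := by
    unfold hh
    exact Pr_le_one (fun _ => ⟨by linarith, h2⟩) _ _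
  rw [cross_real hn, Complex.norm_real, Real.norm_of_nonneg (by linarith)]
  exact ⟨h3, h4⟩

theorem cross_left : ∃ c C : ℝ, 0 < c ∧ 0 < C ∧ ∀ n : ℕ, 1 ≤ n → ∀ p : ℝ, 0 ≤ p → p ≤ 1 / 2 →
    ‖(cross n).eval (p : ℂ)‖ ≤ C * Real.exp (-(c * (n * (1 / 2 - p) ^ (4 / 3 : ℝ)))) := by
  obtain ⟨c, C, hc, hC, h⟩ := Pool.Agent.W424.NC.win_upper 1 le_rfl
  refine ⟨2 * c, C, by positivity, hC, ?_⟩
  intro n hn p h0 h1
  have h2 := h p h0 h1 (2 * n) (2 * n) (by omega) (by omega) (by omega)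
  have h3 : 0 ≤ hh p ((2 * n : ℕ) : ℤ) ((2 * n : ℕ) : ℤ) := by
    unfold hh
    exact Pr_nonneg (fun _ => ⟨h0, by linarith⟩) _ _
  rw [cross_real hn, Complex.norm_real, Real.norm_of_nonneg h3]
  refine h2.trans (le_of_eq ?_)
  congr 3
  push_cast
  ring

theorem cross_zero {n : ℕ} (hn : 1 ≤ n) : (cross n).eval 0 = 0 := by
  classical
  unfold cross
  rw [Polynomial.eval_finsetSum]
  apply Finset.sum_eq_zero
  intro F hF
  rw [mem_filter] at hF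
  rcases Finset.eq_empty_or_nonempty F with h | h
  · exfalso
    obtain ⟨-, y, y', -, -, h1⟩ := hF
    rw [h] at h1
    rcases Relation.ReflTransGen.cases_head h1 with h2 | ⟨w, ⟨e, he, -⟩, -⟩
    · have := congrArg Prod.fst h2
      simp only at this
      omega
    · exact absurd he (by simp)
  · have : F.card ≠ 0 := Finset.card_ne_zero.2 h
    simp [this]

theorem cross_ne_zero {n : ℕ} (hn : 1 ≤ n) : cross n ≠ 0 := by
  intro h
  have h1 := (cross_half hn (p := 1 / 2) le_rfl (by norm_num)).1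
  rw [h] at h1
  norm_num at h1

/-- the scale `n ^ (-3/4)` -/
noncomputable def sc (n : ℕ) : ℝ := (n:ℝ) ^ (-(3 / 4) : ℝ)

theorem sc_pos {n : ℕ} (hn : 1 ≤ n) : 0 < sc n := by
  have : (0:ℝ) < n := by exact_mod_cast hn
  unfold sc
  positivity

theorem sc_pow {n : ℕ} (hn : 1 ≤ n) : (n:ℝ) ^ 2 * sc n ^ (8 / 3 : ℝ) = 1 := by
  have h0 : (0:ℝ) < n := by exact_mod_cast hn
  unfold sc
  rw [← Real.rpow_mul h0.le, ← Real.rpow_natCast (n:ℝ) 2, ← Real.rpow_add h0]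
  norm_num

theorem sc_pow' {n : ℕ} (hn : 1 ≤ n) : (n:ℝ) * sc n ^ (4 / 3 : ℝ) = 1 := by
  have h0 : (0:ℝ) < n := by exact_mod_cast hn
  unfold sc
  rw [← Real.rpow_mul h0.le]
  nth_rewrite 1 [← Real.rpow_one (n:ℝ)]
  rw [← Real.rpow_add h0]
  norm_num

/-- the rescaled crossing polynomial -/
noncomputable def fs (n : ℕ) : ℂ[X] := (cross n).comp (C ((sc n : ℝ) : ℂ) * X + C (1 / 2))

theorem fs_eval (n : ℕ) (w : ℂ) : (fs n).eval w = (cross n).eval (1 / 2 + w * (sc n : ℝ)) := by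
  unfold fs
  rw [Polynomial.eval_comp]
  congr 1
  simp only [eval_add, eval_mul, eval_C, eval_X]
  ring

theorem fs_bound {C : ℝ} (hC : ∀ (n : ℕ) (z : ℂ), 1 ≤ n →
    ‖Zc n (1 / 2 + z)‖ ≤ C * Real.exp (C * ((n:ℝ) ^ 2 * ‖z‖ ^ (8 / 3 : ℝ)))) {n : ℕ} (hn : 1 ≤ n)
    (w : ℂ) : ‖(fs n).eval w‖ ≤ C * Real.exp (C * ‖w‖ ^ (8 / 3 : ℝ)) := by
  rw [fs_eval, cross_eval]
  refine (hC n _ hn).trans (le_of_eq ?_)
  congr 3
  rw [norm_mul, Complex.norm_real, Real.norm_of_nonneg (sc_pos hn).le,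
    Real.mul_rpow (norm_nonneg _) (sc_pos hn).le]
  calc (n:ℝ) ^ 2 * (‖w‖ ^ (8 / 3 : ℝ) * sc n ^ (8 / 3 : ℝ)) =
        ((n:ℝ) ^ 2 * sc n ^ (8 / 3 : ℝ)) * ‖w‖ ^ (8 / 3 : ℝ) := by ring
    _ = _ := by rw [sc_pow hn, one_mul]

theorem fs_real {n : ℕ} (x : ℝ) : (fs n).eval (x : ℂ) =
    (cross n).eval (((1 / 2 + x * sc n : ℝ)) : ℂ) := by
  rw [fs_eval]
  push_cast
  rfl

theorem fs_right {n : ℕ} (hn : 1 ≤ n) {x : ℝ} (h0 : 0 ≤ x) (h1 : x * sc n ≤ 1 / 2) :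
    1 / 2 ≤ ‖(fs n).eval (x : ℂ)‖ ∧ ‖(fs n).eval (x : ℂ)‖ ≤ 1 := by
  rw [fs_real]
  have := (sc_pos hn).le
  exact cross_half hn (by nlinarith) (by linarith)

theorem fs_left : ∃ c C : ℝ, 0 < c ∧ 0 < C ∧ ∀ n : ℕ, 1 ≤ n → ∀ x : ℝ, 0 ≤ x →
    x * sc n ≤ 1 / 2 → ‖(fs n).eval ((-x : ℝ) : ℂ)‖ ≤ C * Real.exp (-(c * x ^ (4 / 3 : ℝ))) := by
  obtain ⟨c, C, hc, hC, h⟩ := cross_left
  refine ⟨c, C, hc, hC, ?_⟩
  intro n hn x h0 h1
  rw [fs_real]
  have h2 := (sc_pos hn).le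
  have h3 : 0 ≤ x * sc n := mul_nonneg h0 h2
  refine (h n hn _ (by linarith) (by linarith)).trans (le_of_eq ?_)
  have h4 : (1:ℝ) / 2 - (1 / 2 + -x * sc n) = x * sc n := by ring
  rw [h4, Real.mul_rpow h0 h2]
  congr 3
  calc (c:ℝ) * (n * (x ^ (4 / 3 : ℝ) * sc n ^ (4 / 3 : ℝ))) =
        c * ((n * sc n ^ (4 / 3 : ℝ)) * x ^ (4 / 3 : ℝ)) := by ring
    _ = _ := by rw [sc_pow' hn, one_mul]

theorem fs_roots {n : ℕ} (hn : 1 ≤ n) (R : ℝ) :
    ((fs n).roots.filter (fun w => ‖w‖ ≤ R)).card =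
      ((cross n).roots.filter (fun w => ‖w - 1 / 2‖ ≤ R * sc n)).card := by
  have h1 : ((sc n : ℝ) : ℂ) ≠ 0 := by exact_mod_cast (sc_pos hn).ne'
  have h2 : (fs n).roots = (cross n).roots.map
      (fun x => ((sc n : ℝ) : ℂ)⁻¹ * (x - 1 / 2)) := by
    unfold fs
    rw [Polynomial.roots_comp_C_mul_X_add_C _ _ _ (isUnit_iff_ne_zero.2 h1)]
    simp
  rw [h2, Multiset.filter_map, Multiset.card_map]
  congr 1
  apply Multiset.filter_congr
  intro x _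
  simp only [Function.comp]
  rw [norm_mul, norm_inv, Complex.norm_real, Real.norm_of_nonneg (sc_pos hn).le,
    inv_mul_le_iff₀ (sc_pos hn), mul_comm]

end Pool.Agent.Y554.NE.Res
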