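import Pool.Agent.Y554.NE.Res

/-! Project NE: the theorems in elementary terms, from the parts. -/

set_option autoImplicit false

namespace Pool.Agent.Y554.NE.Res

open Finset Polynomial Filter Topology

/-- The crossing probability at the complex parameter `1 / 2 + w n ^ (-3/4)`. -/
noncomputable def near (n : ℕ) (w : ℂ) : ℂ :=
  (cross n).eval (1 / 2 + w * ((n : ℝ) ^ (-(3 / 4) : ℝ) : ℝ))

/-- Local uniform convergence on the complex plane of the near-critical crossing probabilities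
along the sequence `ν` of sizes. -/
def Lim (ν : ℕ → ℕ) (G : ℂ → ℂ) : Prop :=
  TendstoLocallyUniformly (fun k w => near (ν k) w) G atTop

/-! ### Proofs -/

open H974 H12S H985T H389NS Pool.Agent.Y554.DP Pool.Agent.Y554.SN

theorem near_eq (n : ℕ) (w : ℂ) : near n w = (fs n).eval w := by
  rw [fs_eval]
  rfl

theorem near_real {n : ℕ} (hn : 1 ≤ n) (x : ℝ) : near n (x : ℂ) =
    ((hh (1 / 2 + x * sc n) ((2 * n : ℕ) : ℤ) ((2 * n : ℕ) : ℤ) : ℝ) : ℂ) := by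
  rw [near_eq, fs_real, cross_real hn]

/-- two-sided bounds on the real line -/
theorem real_bounds : ∃ c C : ℝ, 0 < c ∧ 0 < C ∧ ∀ n : ℕ, 1 ≤ n → ∀ x : ℝ, 0 ≤ x →
    x * sc n ≤ 1 / 4 →
    (c * Real.exp (-(C * x ^ (4 / 3 : ℝ))) ≤
        hh (1 / 2 + (-x) * sc n) ((2 * n : ℕ) : ℤ) ((2 * n : ℕ) : ℤ) ∧
      hh (1 / 2 + (-x) * sc n) ((2 * n : ℕ) : ℤ) ((2 * n : ℕ) : ℤ) ≤
        C * Real.exp (-(c * x ^ (4 / 3 : ℝ)))) ∧
    (c * Real.exp (-(C * x ^ (4 / 3 : ℝ))) ≤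
        1 - hh (1 / 2 + x * sc n) ((2 * n : ℕ) : ℤ) ((2 * n : ℕ) : ℤ) ∧
      1 - hh (1 / 2 + x * sc n) ((2 * n : ℕ) : ℤ) ((2 * n : ℕ) : ℤ) ≤
        C * Real.exp (-(c * x ^ (4 / 3 : ℝ)))) := by
  obtain ⟨c1, C1, hc1, hC1, h1⟩ := Pool.Agent.W424.NC.win_upper 1 le_rfl
  obtain ⟨c2, C2, hc2, hC2, h2⟩ := Pool.Agent.W424.NC.win_lower 1 le_rfl
  obtain ⟨c3, C3, hc3, hC3, h3⟩ := Pool.Agent.W424.NC.win_upper_dual 1 le_rfl
  obtain ⟨c4, C4, hc4, hC4, h4⟩ := Pool.Agent.W424.NC.win_lower_dual 1 le_rfl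
  obtain ⟨c, hc⟩ : ∃ c : ℝ, c = min (min c1 c2) (min c3 c4) := ⟨_, rfl⟩
  obtain ⟨C, hC⟩ : ∃ C : ℝ, C = 2 * max (max C1 C2) (max C3 C4) := ⟨_, rfl⟩
  have hc0 : 0 < c := by rw [hc]; exact lt_min (lt_min hc1 hc2) (lt_min hc3 hc4)
  have i1 : c ≤ c1 := by rw [hc]; exact (min_le_left _ _).trans (min_le_left _ _)
  have i2 : c ≤ c2 := by rw [hc]; exact (min_le_left _ _).trans (min_le_right _ _)
  have i3 : c ≤ c3 := by rw [hc]; exact (min_le_right _ _).trans (min_le_left _ _)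
  have i4 : c ≤ c4 := by rw [hc]; exact (min_le_right _ _).trans (min_le_right _ _)
  have j1 : 2 * C1 ≤ C := by
    rw [hC]
    exact mul_le_mul_of_nonneg_left ((le_max_left _ _).trans (le_max_left _ _)) (by norm_num)
  have j2 : 2 * C2 ≤ C := by
    rw [hC]
    exact mul_le_mul_of_nonneg_left ((le_max_right _ _).trans (le_max_left _ _)) (by norm_num)
  have j3 : 2 * C3 ≤ C := by
    rw [hC]
    exact mul_le_mul_of_nonneg_left ((le_max_left _ _).trans (le_max_right _ _)) (by norm_num)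
  have j4 : 2 * C4 ≤ C := by
    rw [hC]
    exact mul_le_mul_of_nonneg_left ((le_max_right _ _).trans (le_max_right _ _)) (by norm_num)
  have hC0 : 0 < C := by linarith
  refine ⟨c, C, hc0, hC0, ?_⟩
  intro n hn x hx hxs
  have hs := sc_pos hn
  obtain ⟨p, hp⟩ : ∃ p : ℝ, p = 1 / 2 + (-x) * sc n := ⟨_, rfl⟩
  have hp1 : 1 / 4 ≤ p := by rw [hp]; linarith
  have hp2 : p ≤ 1 / 2 := by
    have : 0 ≤ x * sc n := mul_nonneg hx hs.le
    rw [hp]; linarith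
  have hp3 : 1 - p = 1 / 2 + x * sc n := by rw [hp]; ring
  have hy : ((2 * n : ℕ) : ℝ) * (1 / 2 - p) ^ (4 / 3 : ℝ) = 2 * x ^ (4 / 3 : ℝ) := by
    have e1 : 1 / 2 - p = x * sc n := by rw [hp]; ring
    rw [e1, Real.mul_rpow hx hs.le]
    push_cast
    calc (2 * (n:ℝ)) * (x ^ (4 / 3 : ℝ) * sc n ^ (4 / 3 : ℝ)) =
          2 * ((n * sc n ^ (4 / 3 : ℝ)) * x ^ (4 / 3 : ℝ)) := by ring
      _ = _ := by rw [sc_pow' hn, one_mul]
  have hX : 0 ≤ x ^ (4 / 3 : ℝ) := Real.rpow_nonneg hx _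
  have up : ∀ {a b : ℝ}, c ≤ a → 0 < b → 2 * b ≤ C →
      b * Real.exp (-(a * (2 * x ^ (4 / 3 : ℝ)))) ≤ C * Real.exp (-(c * x ^ (4 / 3 : ℝ))) := by
    intro a b ha hb hbC
    have e1 : Real.exp (-(a * (2 * x ^ (4 / 3 : ℝ)))) ≤ Real.exp (-(c * x ^ (4 / 3 : ℝ))) := by
      apply Real.exp_le_exp.mpr
      have h5 := mul_le_mul_of_nonneg_right ha hX
      have h6 := mul_nonneg hc0.le hX
      linarith
    exact mul_le_mul (by linarith) e1 (Real.exp_pos _).le hC0.le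
  have lo : ∀ {a b : ℝ}, c ≤ a → 2 * b ≤ C →
      c * Real.exp (-(C * x ^ (4 / 3 : ℝ))) ≤ a * Real.exp (-(b * (2 * x ^ (4 / 3 : ℝ)))) := by
    intro a b ha hbC
    have e1 : Real.exp (-(C * x ^ (4 / 3 : ℝ))) ≤ Real.exp (-(b * (2 * x ^ (4 / 3 : ℝ)))) := by
      apply Real.exp_le_exp.mpr
      have h5 := mul_le_mul_of_nonneg_right hbC hX
      linarith
    exact mul_le_mul ha e1 (Real.exp_pos _).le (hc0.le.trans ha)
  have k1 := h1 p (by linarith) hp2 (2 * n) (2 * n) (by omega) (by omega) (by omega)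
  have k2 := h2 p hp1 hp2 (2 * n) (2 * n) (by omega) (by omega) (by omega) (by omega)
  have k3 := h3 p hp1 hp2 (2 * n) (2 * n) (by omega) (by omega) (by omega) (by omega)
  have k4 := h4 p hp1 hp2 (2 * n) (2 * n) (by omega) (by omega) (by omega) (by omega)
  rw [hy] at k1 k2 k3 k4
  rw [hp3] at k3 k4
  rw [← hp]
  exact ⟨⟨(lo i2 j2).trans k2, k1.trans (up i1 hC1 j1)⟩,
    ⟨(lo i4 j4).trans k4, k3.trans (up i3 hC3 j3)⟩⟩

theorem sc_le {n : ℕ} (hn : 1 ≤ n) {x : ℝ} (hx : 0 ≤ x) (h : (4 * x) ^ (4 / 3 : ℝ) ≤ n) :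
    x * sc n ≤ 1 / 4 := by
  have h0 : (0:ℝ) < n := by exact_mod_cast hn
  have h1 : 4 * x ≤ (n:ℝ) ^ (3 / 4 : ℝ) := by
    have h2 := Real.rpow_le_rpow (by positivity) h (by norm_num : (0:ℝ) ≤ 3 / 4)
    rwa [← Real.rpow_mul (by positivity), show (4 / 3 : ℝ) * (3 / 4) = 1 by norm_num,
      Real.rpow_one] at h2
  have h2 : (n:ℝ) ^ (3 / 4 : ℝ) * sc n = 1 := by
    unfold sc
    rw [← Real.rpow_add h0]
    norm_num
  have h3 := mul_le_mul_of_nonneg_right h1 (sc_pos hn).le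
  rw [h2] at h3
  linarith

/-- The analytic theorem, from the parts. -/
theorem analytic (hf : S_FIN) (hl : S_LIM) (ho : S_ORD) : ∃ c C : ℝ, 0 < c ∧ 1 ≤ C ∧
    (∀ n : ℕ, 1 ≤ n → ∀ p : ℂ,
      ‖(cross n).eval p‖ ≤ C * Real.exp (C * ((n:ℝ) ^ 2 * ‖p - 1 / 2‖ ^ (8 / 3 : ℝ)))) ∧
    (∀ ν : ℕ → ℕ, StrictMono ν → ∃ (μ : ℕ → ℕ) (G : ℂ → ℂ), StrictMono μ ∧ Lim (ν ∘ μ) G) ∧
    (∀ (ν : ℕ → ℕ) (u : ℝ → ℂ), StrictMono ν →
      (∀ x : ℝ, Tendsto (fun k => near (ν k) (x : ℂ)) atTop (𝓝 (u x))) →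
      ∃ G : ℂ → ℂ, (∀ x : ℝ, G (x : ℂ) = u x) ∧ Lim ν G) ∧
    (∀ (ν : ℕ → ℕ) (G : ℂ → ℂ), StrictMono ν → Lim ν G →
      Differentiable ℂ G ∧ (∀ w, ‖G w‖ ≤ C * Real.exp (C * ‖w‖ ^ (8 / 3 : ℝ))) ∧
      (∀ A B σ : ℝ, σ < 4 / 3 → ∃ w, A * Real.exp (B * ‖w‖ ^ σ) < ‖G w‖) ∧
      (∀ x : ℝ, 0 ≤ x → ∃ a b : ℝ, G ((-x : ℝ) : ℂ) = (a : ℂ) ∧ G (x : ℂ) = (b : ℂ) ∧
        c * Real.exp (-(C * x ^ (4 / 3 : ℝ))) ≤ a ∧ a ≤ C * Real.exp (-(c * x ^ (4 / 3 : ℝ))) ∧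
        c * Real.exp (-(C * x ^ (4 / 3 : ℝ))) ≤ 1 - b ∧
        1 - b ≤ C * Real.exp (-(c * x ^ (4 / 3 : ℝ))))) := by
  obtain ⟨C0, hC0, hfin⟩ := hf
  obtain ⟨c, C1, hc, hC1, hreal⟩ := real_bounds
  obtain ⟨C, hC⟩ : ∃ C : ℝ, C = max C0 C1 := ⟨_, rfl⟩
  have hCC0 : C0 ≤ C := by rw [hC]; exact le_max_left _ _
  have hCC1 : C1 ≤ C := by rw [hC]; exact le_max_right _ _
  have hC' : 1 ≤ C := hC0.trans hCC0
  have hbound : ∀ n : ℕ, 1 ≤ n → ∀ w : ℂ, ‖near n w‖ ≤ C * Real.exp (C * ‖w‖ ^ (8 / 3 : ℝ)) := by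
    intro n hn w
    rw [near_eq]
    refine (fs_bound hfin hn w).trans ?_
    gcongr
  have hdiff : ∀ n : ℕ, Differentiable ℂ (near n) := by
    intro n
    have : near n = fun w => (fs n).eval w := funext (near_eq n)
    rw [this]
    exact (fs n).differentiable
  -- the shifted sequence
  have key : ∀ ν : ℕ → ℕ, StrictMono ν → ∀ k, 1 ≤ ν (k + 1) := by
    intro ν hν k
    have := hν (Nat.lt_succ_self k)
    have h2 : ν k < ν (k + 1) := this
    omega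
  have shift : ∀ (ν : ℕ → ℕ) (G : ℂ → ℂ),
      TendstoLocallyUniformly (fun k w => near (ν (k + 1)) w) G atTop → Lim ν G := by
    intro ν G h
    intro u hu x
    obtain ⟨t, ht, h1⟩ := h u hu x
    refine ⟨t, ht, ?_⟩
    rw [Filter.eventually_atTop] at h1 ⊢
    obtain ⟨a, ha⟩ := h1
    refine ⟨a + 1, fun b hb => ?_⟩
    obtain ⟨b', rfl⟩ : ∃ b', b = b' + 1 := ⟨b - 1, by omega⟩
    exact ha b' (by omega)
  refine ⟨c, C, hc, hC', ?_, ?_, ?_, ?_⟩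
  · intro n hn p
    have h1 := hfin n (p - 1 / 2) hn
    rw [show (1:ℂ) / 2 + (p - 1 / 2) = p by ring] at h1
    rw [cross_eval]
    refine h1.trans ?_
    gcongr
  · intro ν hν
    obtain ⟨⟨μ, G, h1, h2, h3, h4⟩, -⟩ := hl (fun k w => near (ν (k + 1)) w) C hC'
      (fun k => hdiff _) (fun k w => hbound _ (key ν hν k) w)
    refine ⟨fun k => μ k + 1, G, fun a b hab => by have := h1 hab; simpa using this, ?_⟩
    exact h4
  · intro ν u hν hu
    obtain ⟨-, h1⟩ := hl (fun k w => near (ν (k + 1)) w) C hC'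
      (fun k => hdiff _) (fun k w => hbound _ (key ν hν k) w)
    obtain ⟨G, h2, h3, h4, h5⟩ := h1 u (fun x => (hu x).comp (tendsto_add_atTop_nat 1))
    exact ⟨G, h3, shift ν G h5⟩
  · intro ν G hν hG
    have hpt : ∀ w, Tendsto (fun k => near (ν k) w) atTop (𝓝 (G w)) := fun w =>
      (tendstoLocallyUniformlyOn_univ.2 hG).tendsto_at (Set.mem_univ w)
    have hGd : Differentiable ℂ G := by
      have h1 : TendstoLocallyUniformlyOn (fun k w => near (ν k) w) G atTop Set.univ :=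
        tendstoLocallyUniformlyOn_univ.2 hG
      have h2 := h1.differentiableOn (Filter.Eventually.of_forall
        (fun k => (hdiff (ν k)).differentiableOn)) isOpen_univ
      exact differentiableOn_univ.1 h2
    have hev : ∀ᶠ k in atTop, 1 ≤ ν k :=
      (hν.tendsto_atTop).eventually (Filter.eventually_ge_atTop 1)
    have hGb : ∀ w, ‖G w‖ ≤ C * Real.exp (C * ‖w‖ ^ (8 / 3 : ℝ)) := by
      intro w
      refine le_of_tendsto (hpt w).norm ?_
      filter_upwards [hev] with k hk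
      exact hbound _ hk w
    have hGr : ∀ x : ℝ, 0 ≤ x → ∃ a b : ℝ, G ((-x : ℝ) : ℂ) = (a : ℂ) ∧ G (x : ℂ) = (b : ℂ) ∧
        c * Real.exp (-(C * x ^ (4 / 3 : ℝ))) ≤ a ∧ a ≤ C * Real.exp (-(c * x ^ (4 / 3 : ℝ))) ∧
        c * Real.exp (-(C * x ^ (4 / 3 : ℝ))) ≤ 1 - b ∧
        1 - b ≤ C * Real.exp (-(c * x ^ (4 / 3 : ℝ))) := by
      intro x hx
      obtain ⟨N, hN⟩ := exists_nat_ge ((4 * x) ^ (4 / 3 : ℝ))
      have hev2 : ∀ᶠ k in atTop, 1 ≤ ν k ∧ N ≤ ν k := hev.and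
        ((hν.tendsto_atTop).eventually (Filter.eventually_ge_atTop N))
      have hre : ∀ y : ℝ, G (y : ℂ) = ((G (y : ℂ)).re : ℂ) ∧
          Tendsto (fun k => hh (1 / 2 + y * sc (ν k)) ((2 * ν k : ℕ) : ℤ) ((2 * ν k : ℕ) : ℤ))
            atTop (𝓝 (G (y : ℂ)).re) := by
        intro y
        have h1 := hpt (y : ℂ)
        have h2 : (fun k => near (ν k) (y : ℂ)) =ᶠ[atTop] fun k =>
            ((hh (1 / 2 + y * sc (ν k)) ((2 * ν k : ℕ) : ℤ) ((2 * ν k : ℕ) : ℤ) : ℝ) : ℂ) := by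
          filter_upwards [hev] with k hk
          exact near_real hk y
        have h3 := h1.congr' h2
        have h4 : Tendsto (fun k => (((hh (1 / 2 + y * sc (ν k)) ((2 * ν k : ℕ) : ℤ)
            ((2 * ν k : ℕ) : ℤ) : ℝ) : ℂ)).re) atTop (𝓝 (G (y : ℂ)).re) :=
          (Complex.continuous_re.tendsto _).comp h3
        have h5 : Tendsto (fun k => (((hh (1 / 2 + y * sc (ν k)) ((2 * ν k : ℕ) : ℤ)
            ((2 * ν k : ℕ) : ℤ) : ℝ) : ℂ)).im) atTop (𝓝 (G (y : ℂ)).im) :=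
          (Complex.continuous_im.tendsto _).comp h3
        simp only [Complex.ofReal_re] at h4
        simp only [Complex.ofReal_im] at h5
        have h6 : (G (y : ℂ)).im = 0 := tendsto_nhds_unique h5 tendsto_const_nhds
        refine ⟨?_, h4⟩
        apply Complex.ext
        · simp
        · simp [h6]
      have hlo : c * Real.exp (-(C * x ^ (4 / 3 : ℝ))) ≤
          c * Real.exp (-(C1 * x ^ (4 / 3 : ℝ))) := by
        have := Real.rpow_nonneg hx (4 / 3 : ℝ)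
        gcongr
      have hup : C1 * Real.exp (-(c * x ^ (4 / 3 : ℝ))) ≤
          C * Real.exp (-(c * x ^ (4 / 3 : ℝ))) := by
        gcongr
      obtain ⟨g1, g2⟩ := hre (-x)
      obtain ⟨g3, g4⟩ := hre x
      refine ⟨_, _, g1, g3, ?_, ?_, ?_, ?_⟩
      · refine hlo.trans (ge_of_tendsto g2 ?_)
        filter_upwards [hev2] with k hk
        exact (hreal (ν k) hk.1 x hx (sc_le hk.1 hx (hN.trans (by exact_mod_cast hk.2)))).1.1
      · refine (le_of_tendsto g2 ?_).trans hup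
        filter_upwards [hev2] with k hk
        exact (hreal (ν k) hk.1 x hx (sc_le hk.1 hx (hN.trans (by exact_mod_cast hk.2)))).1.2
      · refine hlo.trans (ge_of_tendsto (tendsto_const_nhds.sub g4) ?_)
        filter_upwards [hev2] with k hk
        exact (hreal (ν k) hk.1 x hx (sc_le hk.1 hx (hN.trans (by exact_mod_cast hk.2)))).2.1
      · refine (le_of_tendsto (tendsto_const_nhds.sub g4) ?_).trans hup
        filter_upwards [hev2] with k hk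
        exact (hreal (ν k) hk.1 x hx (sc_le hk.1 hx (hN.trans (by exact_mod_cast hk.2)))).2.2
    refine ⟨hGd, hGb, ?_, hGr⟩
    intro A B σ hσ
    by_contra hcon
    push Not at hcon
    have hz := ho G c C A B σ hc hσ hGd ?_ hcon
    · obtain ⟨a, b, h1, -, h2, -⟩ := hGr 0 le_rfl
      rw [hz] at h1
      have h3 : a = 0 := by exact_mod_cast h1.symm
      rw [h3] at h2
      have h4 : 0 < c * Real.exp (-(C * (0:ℝ) ^ (4 / 3 : ℝ))) := mul_pos hc (Real.exp_pos _)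
      linarith
    · intro x hx
      obtain ⟨a, b, h1, -, h2, h3, -⟩ := hGr x hx
      rw [h1, Complex.norm_real, Real.norm_of_nonneg]
      · exact h3
      · exact (mul_pos hc (Real.exp_pos _)).le.trans h2

/-- The theorem on the zeros, from the parts. -/
theorem zeros (hf : S_FIN) (hz : S_ZER) (hk : S_CLO) : ∃ c C : ℝ, 0 < c ∧ 0 < C ∧
    ∀ n : ℕ, 1 ≤ n →
      (∀ w : ℂ, (cross n).eval w = 0 → c * (n:ℝ) ^ (-(3 / 4) : ℝ) ≤ ‖w - 1 / 2‖) ∧
      (∃ w : ℂ, (cross n).eval w = 0 ∧ ‖w - 1 / 2‖ ≤ C * (n:ℝ) ^ (-(3 / 4) : ℝ)) ∧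
      (∀ ρ : ℝ, 0 < ρ → (((cross n).roots.filter (fun w => ‖w - 1 / 2‖ ≤ ρ)).card : ℝ) ≤
        C * ((n:ℝ) ^ 2 * ρ ^ (8 / 3 : ℝ))) := by
  obtain ⟨C0, hC0, hfin⟩ := hf
  obtain ⟨C2, hC2, hzer⟩ := hz C0 (1 / 2) hC0 (by norm_num)
  obtain ⟨c1, C1, hc1, hC1, hleft⟩ := fs_left
  obtain ⟨X, R, hX, hR, hclo⟩ := hk (max C0 C1) c1 (hC0.trans (le_max_left _ _)) hc1
  -- the number of zeros
  have hcount : ∀ n : ℕ, 1 ≤ n → ∀ ρ : ℝ, 0 < ρ →
      (((cross n).roots.filter (fun w => ‖w - 1 / 2‖ ≤ ρ)).card : ℝ) ≤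
        C2 * ((n:ℝ) ^ 2 * ρ ^ (8 / 3 : ℝ)) := by
    intro n hn ρ hρ
    have hs := sc_pos hn
    have h1 := hzer (fs n) (fun w => fs_bound hfin hn w) ?_ (ρ / sc n) (div_pos hρ hs)
    · rw [fs_roots hn, div_mul_cancel₀ _ hs.ne'] at h1
      refine h1.trans (le_of_eq ?_)
      rw [Real.div_rpow hρ.le hs.le]
      congr 1
      rw [div_eq_iff (by positivity)]
      calc ρ ^ (8 / 3 : ℝ) = ((n:ℝ) ^ 2 * sc n ^ (8 / 3 : ℝ)) * ρ ^ (8 / 3 : ℝ) := by
            rw [sc_pow hn, one_mul]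
        _ = _ := by ring
    · have := (fs_right hn (x := 0) le_rfl (by rw [zero_mul]; norm_num)).1
      simpa using this
  refine ⟨(1 / C2) ^ (3 / 8 : ℝ), max C2 (max R (2 * X)), by positivity, by positivity, ?_⟩
  intro n hn
  have hs := sc_pos hn
  have hn0 : (0:ℝ) < n := by exact_mod_cast hn
  refine ⟨?_, ?_, ?_⟩
  · intro w hw
    by_contra hcon
    push Not at hcon
    obtain ⟨d, hd⟩ : ∃ d : ℝ, d = ‖w - 1 / 2‖ := ⟨_, rfl⟩
    rw [← hd] at hcon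
    have hd0 : 0 ≤ d := by rw [hd]; exact norm_nonneg _
    obtain ⟨ρ, h1, h2⟩ := exists_between hcon
    have hρ : 0 < ρ := lt_of_le_of_lt hd0 h1
    have h3 := hcount n hn ρ hρ
    have h4 : w ∈ (cross n).roots.filter (fun w => ‖w - 1 / 2‖ ≤ ρ) := by
      rw [Multiset.mem_filter, Polynomial.mem_roots (cross_ne_zero hn)]
      exact ⟨hw, by rw [← hd]; exact h1.le⟩
    have h5 : (1:ℝ) ≤ ((cross n).roots.filter (fun w => ‖w - 1 / 2‖ ≤ ρ)).card := by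
      exact_mod_cast Multiset.card_pos_iff_exists_mem.2 ⟨w, h4⟩
    have h6 : ρ ^ (8 / 3 : ℝ) < ((1 / C2) ^ (3 / 8 : ℝ) * sc n) ^ (8 / 3 : ℝ) :=
      Real.rpow_lt_rpow hρ.le h2 (by norm_num)
    have h7 : ((1 / C2) ^ (3 / 8 : ℝ) * sc n) ^ (8 / 3 : ℝ) = 1 / C2 * sc n ^ (8 / 3 : ℝ) := by
      rw [Real.mul_rpow (by positivity) hs.le, ← Real.rpow_mul (by positivity)]
      norm_num
    rw [h7] at h6
    have h8 : C2 * ((n:ℝ) ^ 2 * ρ ^ (8 / 3 : ℝ)) < 1 := by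
      calc C2 * ((n:ℝ) ^ 2 * ρ ^ (8 / 3 : ℝ)) <
            C2 * ((n:ℝ) ^ 2 * (1 / C2 * sc n ^ (8 / 3 : ℝ))) := by gcongr
        _ = (C2 * (1 / C2)) * ((n:ℝ) ^ 2 * sc n ^ (8 / 3 : ℝ)) := by ring
        _ = 1 := by rw [sc_pow hn]; field_simp
    linarith
  · by_cases hX2 : X * sc n ≤ 1 / 2
    · have hcl := hclo (fun w => (fs n).eval w) (fs n).differentiable ?_ ?_ ?_
      · obtain ⟨w, hw1, hw2⟩ := hcl
        refine ⟨1 / 2 + w * (sc n : ℝ), ?_, ?_⟩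
        · rw [← fs_eval]
          exact hw2
        · rw [add_sub_cancel_left, norm_mul, Complex.norm_real, Real.norm_of_nonneg hs.le]
          exact mul_le_mul_of_nonneg_right
            (hw1.trans ((le_max_left _ _).trans (le_max_right _ _))) hs.le
      · intro w
        refine (fs_bound hfin hn w).trans ?_
        have := le_max_left C0 C1
        gcongr
      · intro x h0 h1
        exact fs_right hn h0 ((mul_le_mul_of_nonneg_right h1 hs.le).trans hX2)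
      · intro x h0 h1
        refine (hleft n hn x h0 ((mul_le_mul_of_nonneg_right h1 hs.le).trans hX2)).trans ?_
        exact mul_le_mul_of_nonneg_right (le_max_right _ _) (Real.exp_pos _).le
    · push Not at hX2
      refine ⟨0, cross_zero hn, ?_⟩
      have e1 : ‖(0:ℂ) - 1 / 2‖ = 1 / 2 := by
        rw [zero_sub, norm_neg]
        norm_num
      rw [e1]
      have h1 : 2 * X ≤ max C2 (max R (2 * X)) := (le_max_right _ _).trans (le_max_right _ _)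
      have h2 := mul_le_mul_of_nonneg_right h1 hs.le
      have h3 : 1 / 2 ≤ 2 * X * sc n := by linarith
      exact h3.trans h2
  · intro ρ hρ
    refine (hcount n hn ρ hρ).trans ?_
    exact mul_le_mul_of_nonneg_right (le_max_left _ _) (by positivity)

end Pool.Agent.Y554.NE.Res
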