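import Pool.Agent.Y554.NE.Res2

/-! Project NE: many zeros, and the zeros of the limits. -/

set_option autoImplicit false

namespace Pool.Agent.Y554.NE.Res

open Finset Polynomial Filter Topology

open H974 H12S H985T H389NS Pool.Agent.Y554.DP Pool.Agent.Y554.SN

/-- number of zeros of the rescaled polynomials -/
theorem fs_count (hf : S_FIN) (hz : S_ZER) : ∃ C : ℝ, 0 < C ∧ ∀ n : ℕ, 1 ≤ n → ∀ R : ℝ, 0 < R →
    (((fs n).roots.filter (fun w => ‖w‖ ≤ R)).card : ℝ) ≤ C * R ^ (8 / 3 : ℝ) := by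
  obtain ⟨C0, hC0, hfin⟩ := hf
  obtain ⟨C2, hC2, hzer⟩ := hz C0 (1 / 2) hC0 (by norm_num)
  refine ⟨C2, by linarith, ?_⟩
  intro n hn R hR
  refine hzer (fs n) (fun w => fs_bound hfin hn w) ?_ R hR
  have := (fs_right hn (x := 0) le_rfl (by rw [zero_mul]; norm_num)).1
  simpa using this

/-- many zeros close to `1 / 2` -/
theorem fs_many (hf : S_FIN) (hk : S_CLK) (k : ℕ) : ∃ (R : ℝ) (N : ℕ), 1 ≤ R ∧ 1 ≤ N ∧
    ∀ n : ℕ, N ≤ n → k ≤ ((fs n).roots.filter (fun w => ‖w‖ ≤ R)).card := by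
  obtain ⟨C0, hC0, hfin⟩ := hf
  obtain ⟨c1, C1, hc1, hC1, hleft⟩ := fs_left
  obtain ⟨X, R, hX, hR, hclk⟩ := hk k (max C0 C1) c1 (hC0.trans (le_max_left _ _)) hc1
  obtain ⟨N, hN⟩ := exists_nat_ge ((4 * X) ^ (4 / 3 : ℝ))
  refine ⟨R, max N 1, hR, le_max_right _ _, ?_⟩
  intro n hNn
  have hn : 1 ≤ n := (le_max_right _ _).trans hNn
  have hs := sc_pos hn
  have h1 : X * sc n ≤ 1 / 4 := sc_le hn (by linarith)
    (hN.trans (by exact_mod_cast (le_max_left _ _).trans hNn))
  refine hclk (fs n) ?_ ?_ ?_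
  · intro w
    refine (fs_bound hfin hn w).trans ?_
    have := le_max_left C0 C1
    gcongr
  · intro x h0 h2
    exact fs_right hn h0 ((mul_le_mul_of_nonneg_right h2 hs.le).trans (by linarith))
  · intro x h0 h2
    refine (hleft n hn x h0 ((mul_le_mul_of_nonneg_right h2 hs.le).trans (by linarith))).trans ?_
    exact mul_le_mul_of_nonneg_right (le_max_right _ _) (Real.exp_pos _).le

/-- the limits have infinitely many zeros -/
theorem lim_zeros (hf : S_FIN) (hz : S_ZER) (hk : S_CLK) {ν : ℕ → ℕ} {G : ℂ → ℂ}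
    (hν : StrictMono ν) (hG : Lim ν G) (hGd : Differentiable ℂ G) :
    {w | G w = 0}.Infinite := by
  obtain ⟨C, hC, hcount⟩ := fs_count hf hz
  by_contra hfin
  rw [Set.not_infinite] at hfin
  obtain ⟨R1, hR1⟩ := hfin.isBounded.exists_norm_le
  obtain ⟨R0, hR0⟩ : ∃ R0 : ℝ, R0 = max R1 0 + 1 := ⟨_, rfl⟩
  have hR0p : 0 < R0 := by
    rw [hR0]
    have := le_max_right R1 0
    linarith
  have hzero : ∀ w, G w = 0 → ‖w‖ < R0 := by
    intro w hw
    have h1 := hR1 w hw
    have h2 := le_max_left R1 0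
    rw [hR0]
    linarith
  obtain ⟨k, hkk⟩ := exists_nat_gt (C * R0 ^ (8 / 3 : ℝ))
  obtain ⟨R, N, hR, hN, hmany⟩ := fs_many hf hk k
  -- no zeros of `G` in the annulus
  have hcomp : IsCompact (Metric.closedBall (0:ℂ) R \ Metric.ball 0 R0) :=
    (isCompact_closedBall _ _).diff Metric.isOpen_ball
  have hunif : TendstoUniformlyOn (fun k w => near (ν k) w) G atTop
      (Metric.closedBall (0:ℂ) R \ Metric.ball 0 R0) := by
    have h1 : TendstoLocallyUniformlyOn (fun k w => near (ν k) w) G atTop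
        (Metric.closedBall (0:ℂ) R \ Metric.ball 0 R0) :=
      (tendstoLocallyUniformlyOn_univ.2 hG).mono (Set.subset_univ _)
    exact (tendstoLocallyUniformlyOn_iff_tendstoUniformlyOn_of_compact hcomp).1 h1
  obtain ⟨δ, hδ, hδG⟩ : ∃ δ : ℝ, 0 < δ ∧ ∀ w ∈ Metric.closedBall (0:ℂ) R \ Metric.ball 0 R0,
      δ ≤ ‖G w‖ := by
    rcases (Metric.closedBall (0:ℂ) R \ Metric.ball 0 R0).eq_empty_or_nonempty with h | h
    · exact ⟨1, one_pos, fun w hw => by rw [h] at hw; exact absurd hw (Set.notMem_empty w)⟩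
    · obtain ⟨w0, hw0, hmin⟩ := hcomp.exists_isMinOn h hGd.continuous.norm.continuousOn
      refine ⟨‖G w0‖, ?_, fun w hw => hmin hw⟩
      rw [norm_pos_iff]
      intro h0
      exact hw0.2 (by rw [Metric.mem_ball, dist_zero_right]; exact hzero w0 h0)
  have hev1 := (Metric.tendstoUniformlyOn_iff.1 hunif) δ hδ
  have hev2 : ∀ᶠ k in atTop, N ≤ ν k :=
    (hν.tendsto_atTop).eventually (Filter.eventually_ge_atTop N)
  obtain ⟨j, hj1, hj2⟩ := (hev1.and hev2).exists
  have h1 := hmany (ν j) hj2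
  have h2 : ((fs (ν j)).roots.filter (fun w => ‖w‖ ≤ R)).card ≤
      ((fs (ν j)).roots.filter (fun w => ‖w‖ ≤ R0)).card := by
    apply Multiset.card_le_card
    rw [Multiset.le_iff_count]
    intro w
    rw [Multiset.count_filter, Multiset.count_filter]
    by_cases hw : ‖w‖ ≤ R
    · by_cases hw0 : ‖w‖ ≤ R0
      · rw [if_pos hw, if_pos hw0]
      · rw [if_pos hw, if_neg hw0]
        push Not at hw0
        rw [Nat.le_zero, Multiset.count_eq_zero]
        intro hmem
        have h3 : (fs (ν j)).eval w = 0 := (Polynomial.mem_roots'.1 hmem).2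
        have hwm : w ∈ Metric.closedBall (0:ℂ) R \ Metric.ball 0 R0 := by
          refine ⟨by rw [Metric.mem_closedBall, dist_zero_right]; exact hw, ?_⟩
          rw [Metric.mem_ball, dist_zero_right]
          linarith
        have h4 := hj1 w hwm
        rw [near_eq, h3, dist_zero_right] at h4
        exact absurd (hδG w hwm) (by linarith)
    · rw [if_neg hw]
      exact Nat.zero_le _
  have h3 := hcount (ν j) (hN.trans hj2) R0 hR0p
  have h4 : (k:ℝ) ≤ ((fs (ν j)).roots.filter (fun w => ‖w‖ ≤ R0)).card := by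
    exact_mod_cast h1.trans h2
  linarith

end Pool.Agent.Y554.NE.Res
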