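import Pool.Agent.Y554.NE.Poly

/-! Project NE: START. -/

set_option autoImplicit false

namespace Pool.Agent.Y554.NE

open H974 H12S H985T H389NS Finset Pool.Agent.Y554.DP Pool.Agent.Y554.SN

theorem cap_mul {n s s' M : ℕ} (hM : 1 ≤ M) (h2 : s' ≤ M * max 1 s) :
    cap n s' ≤ M * cap n s := by
  have h3 : max 1 (min s' n) ≤ max 1 s' := max_le_max le_rfl (min_le_left _ _)
  have h4 : 1 ≤ M * max 1 s := le_trans (by omega) (Nat.mul_le_mul hM (le_max_left 1 s))
  unfold cap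
  rcases le_total s n with h | h
  · rw [min_eq_left h]
    exact h3.trans (max_le h4 h2)
  · rw [min_eq_right h]
    calc max 1 (min s' n) ≤ max 1 n := max_le_max le_rfl (min_le_right _ _)
      _ ≤ M * max 1 n := Nat.le_mul_of_pos_left _ (by omega)

theorem psi_cmp (hq : S_Q1) {n : ℕ} {e : Edg} {s s' M : ℕ} (hM : 1 ≤ M) (h : s ≤ s')
    (h2 : s' ≤ M * max 1 s) : psi n e s ≤ (M:ℝ) ^ 2 * psi n e s' := by
  have h0 := psi_nonneg n e s
  unfold psi at h0 ⊢
  have h1 : 1 ≤ cap n s := by unfold cap; omega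
  have h3 : cap n s ≤ cap n s' := by unfold cap; omega
  rw [← hq.1 n (pos e) 1 (cap n s) (cap n s') le_rfl h1 h3]
  have h4 := hq.2.2.1 n (pos e) (cap n s) (cap n s') M h1 h3 hM (cap_mul hM h2)
  calc q1 n (pos e) 1 (cap n s) = 1 * q1 n (pos e) 1 (cap n s) := (one_mul _).symm
    _ ≤ ((M:ℝ) ^ 2 * q1 n (pos e) (cap n s) (cap n s')) * q1 n (pos e) 1 (cap n s) :=
        mul_le_mul_of_nonneg_right h4 h0
    _ = _ := by ring

theorem start (hq : S_Q1) : S_START := by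
  refine ⟨4, by norm_num, ?_⟩
  rintro a n t k R x ha hn hR hx ⟨Ev, par, rk, h1, h2, h3, h4⟩
  refine ⟨Ev, par, rk, h1, h2, h3, h4.trans ?_⟩
  have h5 : psi n x (max t (dm R)) ≤ ((2:ℕ):ℝ) ^ 2 * psi n x (max (t + 1) (dm R)) :=
    psi_cmp hq (by norm_num) (by omega) (by omega)
  have h6 : 0 ≤ a ^ k * ∏ y ∈ R.erase x, psi n y (ds y (par y)) :=
    mul_nonneg (pow_nonneg (by linarith) _) (Finset.prod_nonneg (fun y _ => psi_nonneg _ _ _))
  have h7 := psi_nonneg n x (max (t + 1) (dm R))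
  have h8 : ((2:ℕ):ℝ) ^ 2 * psi n x (max (t + 1) (dm R)) ≤ a * psi n x (max (t + 1) (dm R)) := by
    apply mul_le_mul_of_nonneg_right _ h7
    norm_num
    linarith
  calc a ^ k * (∏ y ∈ R.erase x, psi n y (ds y (par y))) * psi n x (max t (dm R)) ≤
        a ^ k * (∏ y ∈ R.erase x, psi n y (ds y (par y))) *
          (a * psi n x (max (t + 1) (dm R))) := mul_le_mul_of_nonneg_left (h5.trans h8) h6
    _ = _ := by rw [pow_succ]; ring

end Pool.Agent.Y554.NE
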